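import Pool.Agent.Work.MP_d018b2_nt.M.Lev
import Pool.Agent.Work.MP_678620_nt.TBCore
import Pool.Agent.Lib.ANT.SieveSums

-- merged part: Pool.Agent.Work.MP_d018b2_nt.M.Core
section
/-! Few forms correlate with a given set. -/

set_option autoImplicit false
open Finset Filter

namespace Pool.Agent.Work.MP_d018b2_nt.M

open Pool.Agent.Work.MP_678620_nt Pool.Agent.Work.MP_51e72e_nt

lemma size_ev (A : ℕ) {δ : ℝ} (δ0 : 0 < δ) : ∀ᶠ X : ℕ in atTop, ∀ φ, Pf (Real.log X ^ A) φ →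
    ∀ q ∈ Ioc (X : ℤ) (2 * X), (X : ℝ) / 2 ≤ (φ.1 * q + φ.2 : ℤ) ∧
      ((φ.1 * q + φ.2 : ℤ) : ℝ) ≤ 4 * Real.log X ^ A * X ∧ 0 < φ.1 * q + φ.2 ∧
      φ.1 * q + φ.2 ≤ (X : ℤ) ^ 3 ∧
      |Real.log (φ.1 * q + φ.2).toNat - Real.log X| ≤ δ * Real.log X := by
  filter_upwards [TB_ev_small (show (0 : ℝ) ≤ 3 * (A + 1) by positivity) δ0, ev_lin 4 A,
    TB_tend.eventually_ge_atTop 1, eventually_gt_atTop 0] with X g1 g6 l1 X0 φ h q hq
  have X1 : (1 : ℝ) ≤ X := by exact_mod_cast X0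
  have eX : Real.exp (Real.log X) = X := Real.exp_log (by linarith only [X1])
  generalize Real.log X = l at *
  have q0 := Real.rpow_nonneg (zero_le_one.trans l1) (1 / 4 : ℝ)
  have s0 := Real.rpow_nonneg (zero_le_one.trans l1) (24 / 25 : ℝ)
  have t0 := Real.log_nonneg l1
  have A0 : (0 : ℝ) ≤ A := Nat.cast_nonneg A
  have ts := mul_nonneg t0 s0
  have m1 := mul_nonneg A0 t0
  have m2 := mul_nonneg A0 (show 0 ≤ 1 + l ^ (1 / 4 : ℝ) + l ^ (24 / 25 : ℝ) +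
    Real.log l * l ^ (24 / 25 : ℝ) by linarith only [q0, s0, ts])
  have B1 : 1 ≤ l ^ A := one_le_pow₀ l1
  have q3 : (X : ℝ) ≤ q := by exact_mod_cast (mem_Ioc.1 hq).1.le
  have q4 : (q : ℝ) ≤ 2 * X := by exact_mod_cast (mem_Ioc.1 hq).2
  have u := TB_size h.1 h.2.1 h.2.2.1 g6 (n := q) (by linarith only [B1, q3]) (by linarith only [B1, q4])
  obtain ⟨v1, v2, v3⟩ := TB_logs (K := 0) (k := 0) (δ := δ) l1 q0 le_rfl
    (eX.le.trans (le_mul_of_one_le_right (by linarith only [g6, B1]) (one_le_pow₀ l1))) eX.ge u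
    (by clear * - l δ A g1 q0 s0 ts m1 m2; rw [Nat.cast_zero]; linarith only [g1, q0, s0, ts, m1, m2]) (by linarith only [g1, q0, s0, t0, ts, m1, m2])
  refine ⟨u.1, u.2, v1, ?_, ?_⟩
  · have a := u.2.trans (mul_le_mul_of_nonneg_right g6 (by linarith only [g6, B1]))
    have b : (X : ℝ) ^ 2 ≤ X ^ 3 := pow_le_pow_right₀ X1 (by norm_num)
    exact_mod_cast (a.trans (by linarith only [b]) : _ ≤ (X : ℝ) ^ 3)
  · rw [← Int.cast_natCast, Int.toNat_of_nonneg v1.le, abs_le]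
    rw [Nat.cast_zero] at v2
    constructor <;> linarith only [v2, v3]

lemma pt_ev (A : ℕ) {δ : ℝ} (δ0 : 0 < δ) : ∀ᶠ X : ℕ in atTop, ∀ f, Mul1 f → ∀ J : Finset ℕ,
    ∀ φ, Pf (Real.log X ^ A) φ → ∀ q ∈ Ioc (X : ℤ) (2 * X),
      ‖Ph (zz X) f (TE.EE X) J (φ.1 * q + φ.2)‖ ≤ 5 * Real.log X ∧
      ‖Ph (zz X) f (TE.EE X) J (φ.1 * q + φ.2) + Real.log X * f (φ.1 * q + φ.2).toNat‖ ≤
        3 * (δ * Real.log X) + 6 * Real.log X * ((if Bad (zz X)
          (Real.exp (Real.log X ^ (1 / 8 : ℝ))) (TE.YY X) (φ.1 * q + φ.2).toNat then 1 else 0) +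
          if wE (TE.EE X) (φ.1 * q + φ.2) ∉ J then 1 else 0) := by
  filter_upwards [size_ev A δ0, DD_ev, TE.EE_ok, TE.scales,
    TE.rpow_le_rpow_log (1 / δ) (show (99 / 100 : ℝ) < 1 by norm_num),
    TE.rpow_le_rpow_log (2 * Real.exp 73 / δ) (show (24 / 25 : ℝ) < 1 by norm_num)]
    with X sz hD hE hs g3 g4 f hf J φ h q hq
  obtain ⟨⟨E1, E2, E3, -⟩, -⟩ := hE
  obtain ⟨-, -, d2, d1, d3⟩ := sz φ h q hq
  obtain ⟨-, l2, z2, -, -, -, hq'⟩ := hs
  have eY : Real.log (TE.YY X) = Real.log X ^ (99 / 100 : ℝ) := Real.log_exp _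
  have hV := TE.Vz_inv z2
  rw [show Real.log (zz X) = Real.log X ^ (24 / 25 : ℝ) from Real.log_exp _] at hV
  rw [Real.rpow_one] at g3 g4
  have hH : Real.exp (Real.log X ^ (1 / 8 : ℝ)) ≤ zz X := le_trans (Real.exp_le_exp.2
    (Real.rpow_le_rpow_of_exponent_le (by linarith only [l2]) (by norm_num))) hq'
  have ph := (Ph_le (zz X) f (TE.EE X) J _).trans (hD f hf _ _ _ d1)
  refine ⟨ph, ?_⟩
  generalize Real.log X = l at *
  have l0 : 0 < l := by linarith only [l2]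
  have d4 : ‖Ph (zz X) f (TE.EE X) J (φ.1 * q + φ.2) + l * f (φ.1 * q + φ.2).toNat‖ ≤ 6 * l := by
    refine (norm_add_le _ _).trans ?_
    rw [norm_mul, Complex.norm_real, Real.norm_of_nonneg l0.le]
    linarith only [ph, l0, mul_le_of_le_one_right l0.le (hf.le (φ.1 * q + φ.2).toNat)]
  have d0 : 0 < δ * l := by positivity
  by_cases k1 : Bad (zz X) (Real.exp (l ^ (1 / 8 : ℝ))) (TE.YY X) (φ.1 * q + φ.2).toNat
  · rw [if_pos k1]
    split_ifs <;> linarith only [d4, d0, l2]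
  by_cases k2 : wE (TE.EE X) (φ.1 * q + φ.2) ∉ J
  · rw [if_neg k1, if_pos k2]
    linarith only [d4, d0]
  rw [if_neg k1, if_neg k2]
  rw [Bad, not_or] at k1
  have d5 := Ph_typ (J := J) (by linarith only [z2]) hf hH
    (fun p hp => ⟨E1 p hp, (E3 p hp).trans hq', E2 p hp⟩)
    (u := (φ.1 * q + φ.2).toNat) (by omega) (fun p p1 p2 p3 => k1.1 ⟨p, p1, p2, p3⟩)
    (not_lt.1 k1.2) (by rw [Int.toNat_of_nonneg d2.le]; exact not_not.1 k2) d3
  rw [Int.toNat_of_nonneg d2.le, eY] at d5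
  rw [one_div_mul_eq_div, div_le_iff₀ δ0] at g3
  rw [div_mul_eq_mul_div, div_le_iff₀ δ0] at g4
  linarith only [g3, g4, hV, d5]

theorem core (A w : ℕ) {ε : ℝ} (hε : 0 < ε) : ∀ᶠ X : ℕ in atTop,
    ∀ (Q : ℕ → ℤ → Prop) [∀ p, DecidablePred (Q p)],
    (∀ (p : ℕ) (x y : ℤ), x ≡ y [ZMOD p] → Q p x → Q p y) → ∀ P ⊆ VV (PZ w) Q X, ∀ T : ℝ,
    X / Real.log X ^ A ≤ T → ε * P.card ≤ T → ∀ f, Mul1 f → ∀ α : ℤ → ℂ, (∀ q, ‖α q‖ ≤ 1) →
    ∀ S : Finset (ℕ × ℤ), (∀ φ ∈ S, Pf (Real.log X ^ A) φ ∧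
      T ≤ ‖∑ q ∈ P, α q * f (φ.1 * q + φ.2).toNat‖) →
    S.card * T ^ 2 ≤ 2 * 10 ^ 8 * (P.card * (X * rr (PZ w) Q + X / Real.log X)) := by
  have hc : (0 : ℝ) < 1 / 8 := by norm_num
  obtain ⟨k0, H⟩ := off A A hc
  obtain ⟨W, hW⟩ : ∃ W, W = ∏ p ∈ PZ w, p := ⟨_, rfl⟩
  have W0 : 0 < W := hW ▸ prod_pos fun p hp => (PZ_prime hp).pos
  filter_upwards [H W W0, bad_ev A (A + 1) hc, lev A w hε, size_ev A one_pos,
    pt_ev A (show 0 < ε / 24 by positivity), TE.EE_ok, TE.scales, TB_mertens,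
    TE.LL_le_rpow 6 one_pos, TE.LL_tendsto.eventually_ge_atTop (72 + 20 * (k0 + 1)),
    TB_tend.eventually_ge_atTop (48 + 8 * W / ε), ev_lin W 1]
    with X H hB hL sz pt hE hs hM g1 g5 g7 g8 Q _ per P hP T T1 T2 f hf α hα S hS
  obtain ⟨hE, L1⟩ := hE
  have H := H _ hE f hf
  obtain ⟨-, l2, z2, -, -, -, hq⟩ := hs
  have L2 : ek (TE.EE X) 1 ≤ Real.log (Real.log X) + 72 := by
    clear * - X z2 hE hq hM
    rw [ek_one]
    exact (sum_le_sum_of_subset_of_nonneg (fun p hp => (mem_PZ (by linarith only [z2])).mpr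
      ⟨hE.prime p hp, (hE.hi p hp).trans hq⟩) fun _ _ _ => by positivity).trans hM
  rw [← ek_one] at L1
  rw [Real.rpow_one] at g1
  unfold TE.LL at L1 g5 g1
  obtain ⟨J, hJ⟩ : ∃ J, J = Icc (k0 + 1) ⌊6 * Real.log (Real.log X)⌋₊ := ⟨_, rfl⟩
  have i8 : (0 : ℝ) ≤ k0 := Nat.cast_nonneg _
  have fl := Nat.floor_le (show 0 ≤ 6 * Real.log (Real.log X) by linarith only [g5])
  have J1 : (J.card : ℝ) ≤ Real.log X := by
    have : J.card ≤ ⌊6 * Real.log (Real.log X)⌋₊ := by rw [hJ, Nat.card_Icc]; omega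
    linarith only [g1, fl, this, (Nat.cast_le (α := ℝ)).2 this]
  have J2 : ∀ j ∈ J, 1 ≤ j ∧ k0 ≤ j ∧ (j : ℝ) ≤ 6 * Real.log (Real.log X) := fun j hj => by
    obtain ⟨j1, j2⟩ := mem_Icc.1 (hJ ▸ hj)
    exact ⟨by omega, by omega, le_trans (by exact_mod_cast j2) fl⟩
  have hL := hL Q per P hP T T1 T2 J (fun j j1 j2 => hJ ▸ mem_Icc.2
    ⟨by exact_mod_cast (show ((k0 : ℝ) + 1) ≤ j by linarith only [g5, L1, j1]), Nat.le_floor (by linarith only [g5, L2, j2])⟩)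
    (S.filter fun φ => T / 24 ≤ (P.filter fun q => wE (TE.EE X) (φ.1 * q + φ.2) ∉ J).card)
    fun φ hφ => ⟨(hS φ (mem_filter.1 hφ).1).1, (mem_filter.1 hφ).2⟩
  have pt := pt f hf J
  have H := fun φ hφ ψ hψ hne => H _ _ _ _ ((hS φ hφ).1.lin (hS ψ hψ).1 hne) J J1 J2
  have hV := VV_card Q (fun _ => PZ_prime (z := w)) per X
  rw [← hW] at hV
  have r0 := (rr_bd (PZ w) Q).1
  clear L1 L2 g5 g1 fl J1 J2 hJ hM hE hq z2 i8
  generalize TE.EE X = E at *
  generalize TE.YY X = YY at *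
  generalize Real.log X = l at *
  generalize zz X = z at *
  generalize Real.exp (l ^ (1 / 8 : ℝ)) = H0 at *
  have i4 : 0 ≤ 8 * W / ε := by positivity
  have l0 : 0 < l := by linarith only [g7, i4]
  have X0 : (0 : ℝ) ≤ X := Nat.cast_nonneg X
  have T0 : 0 ≤ T := le_trans (by positivity) T1
  have PI : P ⊆ Ioc (X : ℤ) (2 * X) := hP.trans (filter_subset _ _)
  obtain ⟨S', hS'⟩ : ∃ S', S' = S.filter fun φ =>
    ¬ T / 24 ≤ (P.filter fun q => wE E (φ.1 * q + φ.2) ∉ J).card := ⟨_, rfl⟩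
  have sub : S' ⊆ S := hS' ▸ filter_subset _ _
  have hT : ∀ φ ∈ S', T * l / 2 ≤ ‖∑ q ∈ P, α q * Ph z f E J (φ.1 * q + φ.2)‖ := by
    clear * - S' l A T P α f z E J hS sub S hS' H0 YY X PI hB sz ε hα pt l2 T1 l0 T2 W g7 i4 T0
    intro φ hφ
    obtain ⟨h, hl⟩ := hS φ (sub hφ)
    rw [hS'] at hφ
    have c2 := (not_le.1 (mem_filter.1 hφ).2).le
    have c4 : ((P.filter fun q => Bad z H0 YY (φ.1 * q + φ.2).toNat).card : ℝ) ≤ X / l ^ (A + 1) :=
      le_trans (Nat.cast_le.2 (card_le_card (filter_subset_filter _ PI)))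
        (hB φ.1 φ.2 h.1 fun q hq => ⟨(sz φ h q hq).2.2.1, (sz φ h q hq).2.1⟩)
    have c5 := (norm_sum_le P fun q => α q * (Ph z f E J (φ.1 * q + φ.2) +
      l * f (φ.1 * q + φ.2).toNat)).trans (sum_le_sum fun q hq => (norm_mul_le _ _).trans
        ((mul_le_of_le_one_left (norm_nonneg _) (hα q)).trans (pt φ h q (PI hq)).2))
    simp only [sum_add_distrib, mul_add, ← mul_sum, sum_boole, sum_const, nsmul_eq_mul] at c5
    have e : ∑ q ∈ P, α q * (l * f (φ.1 * q + φ.2).toNat) =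
        l * ∑ q ∈ P, α q * f (φ.1 * q + φ.2).toNat := by
      rw [mul_sum]; exact sum_congr rfl fun _ _ => by ring
    have c6 := norm_sub_le (∑ q ∈ P, α q * Ph z f E J (φ.1 * q + φ.2) +
      ∑ q ∈ P, α q * (l * f (φ.1 * q + φ.2).toNat)) (∑ q ∈ P, α q * Ph z f E J (φ.1 * q + φ.2))
    rw [add_sub_cancel_left, e, norm_mul, Complex.norm_real, Real.norm_of_nonneg l0.le, ← e] at c6
    have c8 : l * (X / l ^ (A + 1)) ≤ T := le_trans (le_of_eq (by field_simp; ring)) T1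
    have c9 := mul_le_mul_of_nonneg_left c4 l0.le
    have c10 := mul_le_mul_of_nonneg_left c2 l0.le
    have c11 := mul_le_mul_of_nonneg_left T2 l0.le
    have c12 := mul_le_mul_of_nonneg_left hl l0.le
    have c13 := mul_le_mul_of_nonneg_left (show 48 ≤ l by linarith only [g7, i4]) T0
    linarith only [c5, c6, c8, c9, c10, c11, c12, c13]
  have Be := bessel S' hP α hα (fun φ q => Ph z f E J (φ.1 * q + φ.2)) (by positivity)
    (show (0 : ℝ) ≤ W * (X / l ^ A) by positivity) hT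
    (fun φ hφ => (sum_le_card_nsmul _ _ ((5 * l) ^ 2) fun q hq => pow_le_pow_left₀ (norm_nonneg _)
      (pt φ (hS φ (sub hφ)).1 q (mem_filter.1 hq).1).1 2).trans_eq (nsmul_eq_mul _ _))
    fun φ hφ ψ hψ hne => per_sum _ _ _ W0 (fun x y k k1 p hp => per p x y
      (k.of_dvd (Int.natCast_dvd_natCast.2 (hW ▸ dvd_prod_of_mem _ hp))) (k1 p hp))
      (by positivity) (H φ (sub hφ) ψ (sub hψ) hne)
  have F := bes_num (Nat.cast_nonneg _) (by clear * - P w Q X l l2 Be; positivity) ?_ Be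
  · have a : (W : ℝ) ≤ X / l := by rwa [le_div_iff₀ l0, ← pow_one l]
    have b : S'.card * T ^ 2 ≤ 200 * (P.card * (VV (PZ w) Q X).card) := by
      refine le_of_mul_le_mul_right ?_ (show 0 < l ^ 2 by positivity)
      unfold VV
      linarith only [F]
    have c := mul_le_mul_of_nonneg_left (hV.trans (add_le_add_right a _))
      (Nat.cast_nonneg (α := ℝ) P.card)
    have d : 0 ≤ P.card * (X * rr (PZ w) Q + X / l) := by clear * - P X w Q l r0 l2; positivity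
    rw [← card_filter_add_card_filter_not (s := S) fun φ =>
      T / 24 ≤ (P.filter fun q => wE E (φ.1 * q + φ.2) ∉ J).card, ← hS', Nat.cast_add]
    linarith only [hL, b, c, d]
  · have a : 8 * W ≤ l ^ 2 * ε := (div_le_iff₀ hε).1
      (le_trans (by linarith only [g7]) (le_self_pow₀ (by linarith only [g7, i4]) two_ne_zero))
    refine le_of_mul_le_mul_left ?_ hε
    calc _ = ε * P.card * (W * (X / l ^ A)) := by ring
      _ ≤ T * (l ^ 2 * ε / 8 * T) := by clear * - ε P T W X l A T2 a T1 l2 hε W0 T0; gcongr; linarith only [a]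
      _ = _ := by ring

end Pool.Agent.Work.MP_d018b2_nt.M
end

-- merged part: Pool.Agent.Work.MP_d018b2_nt.M.Sieve
section
/-! An upper bound sieve of the right order, and the singular product of a system of forms. -/

set_option autoImplicit false
open Finset Filter

namespace Pool.Agent.Work.MP_d018b2_nt.M

open Pool.Agent.Work.MP_678620_nt Pool.Agent.Work.MP_51e72e_nt Pool.Agent.Lib.ANT

lemma markov (Ps : Finset ℕ) (g c : ℕ → ℝ) (hg : ∀ p ∈ Ps, 0 ≤ g p) :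
    ∑ T ∈ Ps.powerset, (∏ p ∈ T, g p) * ∑ p ∈ T, c p =
      (∏ p ∈ Ps, (1 + g p)) * ∑ p ∈ Ps, c p * (g p / (1 + g p)) := by
  induction Ps using Finset.induction_on with
  | empty => simp
  | insert a s ha ih =>
    have ih := ih fun p hp => hg p (mem_insert_of_mem hp)
    have g0 : 1 + g a ≠ 0 := by linarith [hg a (mem_insert_self _ _)]
    rw [sum_powerset_insert ha, prod_insert ha, sum_insert ha, sum_congr rfl
      (g := fun T => g a * c a * ∏ p ∈ T, g p + g a * ((∏ p ∈ T, g p) * ∑ p ∈ T, c p))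
      (f := fun T => (∏ p ∈ insert a T, g p) * ∑ p ∈ insert a T, c p) fun T hT => by
        have : a ∉ T := fun h => ha (mem_powerset.1 hT h)
        rw [prod_insert this, sum_insert this]
        ring, sum_add_distrib, ← mul_sum, ← mul_sum, ih, ← prod_one_add]
    field_simp
    ring

lemma sqf_lower {Ps : Finset ℕ} (hPs : ∀ p ∈ Ps, p.Prime) {g : ℕ → ℝ} (hg : ∀ p ∈ Ps, 0 ≤ g p)
    {z : ℝ} (hz : 1 < z) (h : 2 * ∑ p ∈ Ps, Real.log p * (g p / (1 + g p)) ≤ Real.log z) :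
    (∏ p ∈ Ps, (1 + g p)) / 2 ≤ sqfSum Ps g z := by
  have l0 := Real.log_pos hz
  have a : (∏ p ∈ Ps, (1 + g p)) * Real.log z ≤ sqfSum Ps g z * Real.log z +
      ∑ T ∈ Ps.powerset, (∏ p ∈ T, g p) * ∑ p ∈ T, Real.log p := by
    rw [prod_one_add, sqfSum, sum_mul, sum_mul, ← sum_add_distrib]
    refine sum_le_sum fun T hT => ?_
    have t0 : 0 ≤ ∏ p ∈ T, g p := prod_nonneg fun p hp => hg p (mem_powerset.1 hT hp)
    split_ifs with k
    · exact le_add_of_nonneg_right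
        (mul_nonneg t0 (sum_nonneg fun p _ => Real.log_natCast_nonneg p))
    · rw [zero_mul, zero_add, ← Real.log_prod fun p hp => by
        exact_mod_cast (hPs p (mem_powerset.1 hT hp)).ne_zero]
      rw [Nat.cast_prod] at k
      exact mul_le_mul_of_nonneg_left (Real.log_le_log (by linarith) (not_le.1 k).le) t0
  rw [markov _ _ _ hg] at a
  have b := mul_le_mul_of_nonneg_left h
    (prod_nonneg fun p hp => show 0 ≤ 1 + g p by linarith [hg p hp])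
  exact le_of_mul_le_mul_right (by linarith only [a, b]) l0

lemma sieve_up {y z : ℝ} (hy : 1 ≤ y) (Ω : ℕ → Finset ℕ) {k : ℕ}
    (hΩ : ∀ p : ℕ, p.Prime → Ω p ⊆ range p ∧ (Ω p).card < p ∧ (Ω p).card ≤ k) (hz : 1 < z)
    (h : 2 * k * (Real.log y + 14) ≤ Real.log z) (M N : ℕ) :
    (((Ioc M (M + N)).filter fun n => ∀ p ∈ PZ y, n % p ∉ Ω p).card : ℝ) ≤
      2 * N * ∏ p ∈ PZ y, (1 - ((Ω p).card : ℝ) / p) + z ^ 4 := by
  obtain ⟨Ps, hPs⟩ : ∃ Ps, Ps = (PZ y).filter fun p => 0 < (Ω p).card := ⟨_, rfl⟩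
  have sub : Ps ⊆ PZ y := hPs ▸ filter_subset _ _
  have pr : ∀ p ∈ Ps, p.Prime := fun p hp => PZ_prime (sub hp)
  have lt : ∀ p : ℕ, p.Prime → (0 : ℝ) < p - (Ω p).card := fun p hp =>
    sub_pos.2 (by exact_mod_cast (hΩ p hp).2.1)
  have H := sieve_classes Ps pr Ω (fun p hp => (hΩ p (pr p hp)).1)
    (fun p hp => by rw [hPs] at hp; exact (mem_filter.1 hp).2) (fun p hp => (hΩ p (pr p hp)).2.1) M N z hz.le
  refine le_trans (Nat.cast_le.2 (card_le_card fun n hn => ?_)) (H.trans (add_le_add ?_ ?_))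
  · exact mem_filter.2 ⟨(mem_filter.1 hn).1, fun p hp => (mem_filter.1 hn).2 p (sub hp)⟩
  · have g0 : ∀ p ∈ Ps, 0 ≤ ((Ω p).card : ℝ) / (p - (Ω p).card) := fun p hp =>
      div_nonneg (Nat.cast_nonneg _) (lt p (pr p hp)).le
    have a := sqf_lower pr g0 hz (le_trans (by
      clear * - y hy Ps Ω k lt pr hΩ sub h
      have b : ∑ p ∈ PZ y, Real.log p / p ≤ Real.log y + 14 := by
        have := (TE.sum_log_PS0 hy).2
        rwa [TE.PS_zero] at this
      have c : ∑ p ∈ Ps, Real.log p * (((Ω p).card : ℝ) / (p - (Ω p).card) /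
          (1 + ((Ω p).card : ℝ) / (p - (Ω p).card))) ≤ k * ∑ p ∈ PZ y, Real.log p / p := by
        rw [mul_sum]
        refine (sum_le_sum fun p hp => ?_).trans (sum_le_sum_of_subset_of_nonneg sub
          fun p _ _ => mul_nonneg (Nat.cast_nonneg _)
            (div_nonneg (Real.log_natCast_nonneg p) (Nat.cast_nonneg _)))
        have d := lt p (pr p hp)
        have p0 : (0 : ℝ) < p := by exact_mod_cast (pr p hp).pos
        have e : ((Ω p).card : ℝ) ≤ k := by exact_mod_cast (hΩ p (pr p hp)).2.2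
        calc _ = (Ω p).card * (Real.log p / p) := by field_simp; ring
          _ ≤ _ := mul_le_mul_of_nonneg_right e (div_nonneg (Real.log_natCast_nonneg p) p0.le)
      linarith only [c, b, mul_le_mul_of_nonneg_left b (Nat.cast_nonneg (α := ℝ) k)]) h)
    have e : ∏ p ∈ Ps, (1 + ((Ω p).card : ℝ) / (p - (Ω p).card)) =
        (∏ p ∈ PZ y, (1 - ((Ω p).card : ℝ) / p))⁻¹ := by
      rw [← prod_inv_distrib, hPs, prod_filter]
      refine prod_congr rfl fun p hp => ?_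
      have d := lt p (PZ_prime hp)
      have p0 : (0 : ℝ) < p := by exact_mod_cast (PZ_prime hp).pos
      split_ifs with k
      · field_simp; ring
      · rw [Nat.eq_zero_of_not_pos k]; simp
    have p0 : 0 < ∏ p ∈ PZ y, (1 - ((Ω p).card : ℝ) / p) := prod_pos fun p hp => by
      rw [sub_pos, div_lt_one (by exact_mod_cast (PZ_prime hp).pos)]
      linarith only [lt p (PZ_prime hp)]
    rw [e] at a
    rw [← sqfSum_eq_sum_divisors Ps pr]
    refine (div_le_div_of_nonneg_left (Nat.cast_nonneg _) (by positivity) a).trans (le_of_eq ?_)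
    field_simp
  · have hsq := squarefree_prod_primes Ps pr
    rw [show z ^ 4 = (z * z) ^ 2 by ring]
    refine pow_le_pow_left₀ (by positivity) ((sum_le_card_nsmul _ _ z fun d hd => ?_).trans ?_) 2
    · obtain ⟨d1, d2⟩ := mem_filter.1 hd
      refine le_trans ?_ d2
      conv_rhs => rw [← Nat.prod_primeFactors_of_squarefree
        (hsq.squarefree_of_dvd (Nat.dvd_of_mem_divisors d1)), Nat.cast_prod]
      exact prod_le_prod (fun _ _ => Nat.cast_nonneg _) fun p hp => by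
        linarith only [lt p (Nat.prime_of_mem_primeFactors hp)]
    · rw [nsmul_eq_mul]
      refine mul_le_mul_of_nonneg_right (le_trans ?_ (Nat.floor_le (by linarith only [hz]))) (by linarith)
      refine Nat.cast_le.2 ((card_le_card (t := Icc 1 ⌊z⌋₊) fun d hd => ?_).trans (by simp))
      exact mem_Icc.2 ⟨Nat.pos_of_mem_divisors (mem_filter.1 hd).1, Nat.le_floor (mem_filter.1 hd).2⟩

/-- The local factor. -/
noncomputable def lc (k : ℕ) (ω : ℕ → ℕ) (p : ℕ) : ℝ := (1 - (ω p : ℝ) / p) / (1 - 1 / (p : ℝ)) ^ k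

lemma lc_prod (k : ℕ) (ω : ℕ → ℕ) (y : ℝ) :
    ∏ p ∈ PZ y, (1 - (ω p : ℝ) / p) = Vz y ^ k * ∏ p ∈ PZ y, lc k ω p := by
  rw [show Vz y = ∏ p ∈ PZ y, (1 - (p : ℝ)⁻¹) from rfl, ← prod_pow, ← prod_mul_distrib]
  refine prod_congr rfl fun p hp => ?_
  have : 1 - (p : ℝ)⁻¹ ≠ 0 :=
    (sub_pos.2 (inv_lt_one_of_one_lt₀ (by exact_mod_cast (PZ_prime hp).one_lt))).ne'
  rw [lc, one_div, mul_div_cancel₀ _ (pow_ne_zero _ this)]

lemma le_lc {k : ℕ} {ω : ℕ → ℕ} {p : ℕ} (hp : p.Prime) (hω : ω p ≤ k) (h : k ≤ p) :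
    1 - k ^ 2 * ((p : ℝ) ^ 2)⁻¹ ≤ lc k ω p := by
  have h1 : (2 : ℝ) ≤ p := by exact_mod_cast hp.two_le
  have h3 : (p : ℝ)⁻¹ ≤ 1 / 2 := by rw [one_div]; exact inv_anti₀ two_pos h1
  have h0 : 0 ≤ (p : ℝ)⁻¹ := by positivity
  have h2 : (ω p : ℝ) ≤ k := by exact_mod_cast hω
  have h4 : k * (p : ℝ)⁻¹ ≤ 1 := by
    rw [← div_eq_mul_inv, div_le_one (by linarith only [h1])]; exact_mod_cast h
  have h5 : (1 + k * (p : ℝ)⁻¹) * (1 - (p : ℝ)⁻¹) ^ k ≤ 1 := by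
    clear * - k p h0 h3
    refine (mul_le_mul_of_nonneg_right (one_add_mul_le_pow (by linarith only [h0]) k)
      (pow_nonneg (by linarith only [h3]) _)).trans ?_
    rw [← mul_pow]
    exact pow_le_one₀ (by nlinarith only [h3, h0]) (by nlinarith only [h0])
  rw [lc, one_div, le_div_iff₀ (pow_pos (by linarith only [h3]) _), div_eq_mul_inv, ← inv_pow]
  clear * - k p ω h5 h4 h2 h0
  nlinarith only [h5, h4, h2, h0, mul_le_mul_of_nonneg_left h5 (sub_nonneg.2 h4), mul_le_mul_of_nonneg_right h2 h0]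

lemma lc_le_one {k : ℕ} {ω : ℕ → ℕ} {p : ℕ} (hp : p.Prime) (hω : k ≤ ω p) : lc k ω p ≤ 1 := by
  have h1 : (1 : ℝ) < p := by exact_mod_cast hp.one_lt
  have h2 : (k : ℝ) ≤ ω p := by exact_mod_cast hω
  have h3 : 1 / (p : ℝ) < 1 := (div_lt_one (by linarith)).2 h1
  rw [lc, div_le_one (pow_pos (by linarith) _)]
  have := one_add_mul_le_pow (a := -(1 / (p : ℝ))) (by linarith) k
  have h4 : (k : ℝ) / p ≤ ω p / p := by gcongr
  rw [← sub_eq_add_neg, mul_neg, mul_one_div] at this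
  linarith only [this, h4]

lemma inv_le_lc (k : ℕ) {ω : ℕ → ℕ} {p : ℕ} (hp : p.Prime) (hω : ω p < p) :
    (p : ℝ)⁻¹ ≤ lc k ω p := by
  have h1 : (1 : ℝ) < p := by exact_mod_cast hp.one_lt
  have h2 : (ω p : ℝ) + 1 ≤ p := by exact_mod_cast hω
  have h3 : 1 / (p : ℝ) < 1 := (div_lt_one (by linarith)).2 h1
  rw [lc, le_div_iff₀ (pow_pos (by linarith) _)]
  refine (mul_le_of_le_one_right (by positivity) (pow_le_one₀ (by linarith)
    (sub_le_self _ (by positivity)))).trans ?_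
  rw [le_sub_iff_add_le, ← one_div, ← add_div, div_le_one (by linarith)]
  linarith

lemma lc_tprod {k : ℕ} {ω : ℕ → ℕ} (h1 : ∀ p : ℕ, p.Prime → ω p < p ∧ ω p ≤ k) {K : ℝ}
    (h2 : ∀ p : ℕ, p.Prime → K < p → k ≤ ω p) {y : ℝ} (hy : 4 * (k : ℝ) ^ 2 ≤ y) :
    ∏ p ∈ PZ y, lc k ω p ≤ 2 * ∏' p : Nat.Primes, lc k ω p := by
  have y0 : 0 ≤ y := le_trans (by positivity) hy
  have kk : (k : ℝ) ≤ k ^ 2 := by exact_mod_cast Nat.le_self_pow two_ne_zero k
  have l0 : ∀ p : ℕ, p.Prime → 0 ≤ lc k ω p := fun p hp =>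
    le_trans (by positivity) (inv_le_lc k hp (h1 p hp).1)
  have hs : Summable fun p : Nat.Primes => lc k ω p - 1 := by
    clear * - k ω K h2 h1
    have s1 : Summable fun p : Nat.Primes => (k : ℝ) ^ 2 * (((p : ℕ) : ℝ) ^ 2)⁻¹ :=
      ((Real.summable_nat_pow_inv.mpr one_lt_two).mul_left _).subtype _
    refine s1.of_norm_bounded_eventually ?_
    filter_upwards [(Nat.Primes.coe_nat_injective.tendsto_cofinite.mono_right
      Nat.cofinite_eq_atTop.le).eventually (eventually_gt_atTop (⌈K⌉₊ + k))] with p hp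
    replace hp : ⌈K⌉₊ + k < p.1 := hp
    have a1 := lc_le_one p.2 (h2 p p.2 (Nat.lt_of_ceil_lt (by omega)))
    have a2 := le_lc p.2 (h1 p p.2).2 (by omega)
    rw [Real.norm_eq_abs, abs_sub_comm, abs_of_nonneg (by linarith only [a1])]
    linarith only [a2]
  have hm := (Real.multipliable_one_add_of_summable hs).hasProd
  simp only [add_sub_cancel] at hm
  rw [← div_le_iff₀' two_pos]
  refine ge_of_tendsto hm ?_
  filter_upwards [eventually_ge_atTop ((PZ y).subtype Nat.Prime)] with s hs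
  obtain ⟨S, hS⟩ : ∃ S, S = s.map (Function.Embedding.subtype Nat.Prime) := ⟨_, rfl⟩
  refine le_of_le_of_eq ?_ ((congrArg (fun S => ∏ p ∈ S, lc k ω p) hS).trans
    (prod_map s (Function.Embedding.subtype Nat.Prime) (lc k ω)))
  have a1 : PZ y ⊆ S := fun p hp =>
    hS ▸ mem_map.mpr ⟨⟨p, PZ_prime hp⟩, hs (mem_subtype.mpr hp), rfl⟩
  have a2 : ∀ p ∈ S \ PZ y, p.Prime ∧ y < p := fun p hp => by
    obtain ⟨q, _, rfl⟩ := mem_map.mp (hS ▸ (mem_sdiff.mp hp).1)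
    exact ⟨q.2, not_le.1 fun k => (mem_sdiff.mp hp).2 ((mem_PZ y0).2 ⟨q.2, k⟩)⟩
  have a3 : ∀ p ∈ S \ PZ y, (k : ℝ) ^ 2 * ((p : ℝ) ^ 2)⁻¹ ≤ 1 := fun p hp => by
    clear * - p y a2 hp k hy
    have b : (1 : ℝ) ≤ p := by exact_mod_cast (a2 p hp).1.one_le
    rw [← div_eq_mul_inv]
    exact div_le_one_of_le₀ (by nlinarith only [hy, b, (a2 p hp).2]) (by positivity)
  have a4 : ∑ p ∈ S \ PZ y, ((p : ℝ) ^ 2)⁻¹ ≤ 2 / (⌊y⌋₊ + 1) :=
    (sum_le_sum_of_subset_of_nonneg (fun p hp => mem_Ioo.2 ⟨(Nat.floor_lt y0).2 (a2 p hp).2,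
      Nat.lt_succ_of_le (le_sup (f := id) (mem_sdiff.1 hp).1)⟩) fun _ _ _ => by positivity).trans
      (sum_Ioo_inv_sq_le _ (S.sup id + 1))
  rw [← prod_sdiff a1, div_eq_inv_mul]
  refine mul_le_mul_of_nonneg_right (le_trans ?_ ((TB_one_sub_sum _ _ (fun p _ => by positivity)
    a3).trans (prod_le_prod (fun p hp => sub_nonneg.mpr (a3 p hp)) fun p hp =>
      le_lc (a2 p hp).1 (h1 p (a2 p hp).1).2 (by
        exact_mod_cast (show (k : ℝ) ≤ p by linarith [(a2 p hp).2])))))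
    (prod_nonneg fun p hp => l0 p (PZ_prime hp))
  rw [← mul_sum]
  have a5 : (k : ℝ) ^ 2 * (2 / (⌊y⌋₊ + 1)) ≤ 1 / 2 := by
    rw [← mul_div_assoc, div_le_iff₀ (by positivity)]
    linarith only [hy, Nat.lt_floor_add_one y]
  linarith only [a5, a4, mul_le_mul_of_nonneg_left a4 (sq_nonneg (k : ℝ))]

/-- The roots of a system of forms. -/
def rt {k : ℕ} (φ : Fin k → ℕ × ℤ) (p : ℕ) : Finset ℕ :=
  (range p).filter fun q : ℕ => (p : ℤ) ∣ ∏ j, ((φ j).1 * q + (φ j).2 : ℤ)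

lemma rt_eq {k : ℕ} (φ : Fin k → ℕ × ℤ) {p : ℕ} (hp : p.Prime) : rt φ p =
    univ.biUnion fun j => (range p).filter fun q : ℕ => (p : ℤ) ∣ (φ j).1 * q + (φ j).2 := by
  ext q
  simp only [rt, mem_filter, mem_biUnion, mem_univ, true_and,
    (Nat.prime_iff_prime_int.1 hp).dvd_finsetProd_iff, exists_and_left]

lemma rt_le {k : ℕ} {φ : Fin k → ℕ × ℤ} {B : ℝ} (h : ∀ j, Pf B (φ j)) {p : ℕ} (hp : p.Prime) :
    (rt φ p).card ≤ k := by
  rw [rt_eq φ hp]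
  exact card_biUnion_le.trans ((sum_le_card_nsmul _ _ 1 fun j _ =>
    TB_root_le hp (h j).2.2.2).trans (by simp))

lemma le_rt {k : ℕ} {φ : Fin k → ℕ × ℤ} {B : ℝ} (h : ∀ j, Pf B (φ j)) (hφ : Function.Injective φ)
    {p : ℕ} (hp : p.Prime) (hB : 2 * B ^ 2 < p) : k ≤ (rt φ p).card := by
  rw [rt_eq φ hp, card_biUnion, sum_congr rfl fun j _ => TB_root hp ((h j).nd hB)]
  · simp
  · exact fun i _ j _ e => disjoint_filter.2 fun q _ =>
      TB_not_both (((h i).lin (h j) (hφ.ne e)).big hB).2.2 (q : ℤ)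

end Pool.Agent.Work.MP_d018b2_nt.M
end

-- merged part: Pool.Agent.Work.MP_d018b2_nt.M.Fin
section
/-! Prime tuples, and the transfer to real scales. -/

set_option autoImplicit false
open Finset Filter

namespace Pool.Agent.Work.MP_d018b2_nt.M

open Pool.Agent.Work.MP_678620_nt Pool.Agent.Work.MP_51e72e_nt

lemma Vz_inv_ge (y : ℝ) : Real.log ⌊y⌋₊ ≤ (Vz y)⁻¹ := by
  have a := Pool.Agent.Lib.ANT.log_le_prod_one_sub_inv_prime_inv ⌊y⌋₊
  rwa [prod_inv_distrib] at a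

lemma ex_w {v : ℝ} (hv : 0 < v) (m : ℝ) : ∃ w : ℕ, m ≤ w ∧ Vz w ≤ v := by
  obtain ⟨w, hw⟩ := exists_nat_ge (max m (Real.exp v⁻¹))
  obtain ⟨h1, h2⟩ := max_le_iff.1 hw
  have a := Vz_inv_ge w
  rw [Nat.floor_natCast] at a
  exact ⟨w, h1, (inv_le_inv₀ hv (Vz_pos w)).1
    (((Real.le_log_iff_exp_le ((Real.exp_pos _).trans_le h2)).2 h2).trans a)⟩

lemma nd_prod {k : ℕ} {u : Fin k → ℤ} {p : ℕ} (hp : p.Prime)
    (h : ∀ j, (u j).toNat.Prime ∧ (p : ℝ) < u j) : ¬ (p : ℤ) ∣ ∏ j, u j := fun d => by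
  obtain ⟨j, -, d⟩ := ((Nat.prime_iff_prime_int.1 hp).dvd_finsetProd_iff _).1 d
  obtain ⟨h1, h2⟩ := h j
  have h3 : (p : ℤ) < u j := by exact_mod_cast h2
  rw [← Int.toNat_of_nonneg (show 0 ≤ u j by omega)] at d
  have := (Nat.prime_dvd_prime_iff_eq hp h1).1 (Int.natCast_dvd_natCast.1 d)
  omega

lemma prod_per {k : ℕ} (φ : Fin k → ℕ × ℤ) {p : ℕ} {x y : ℤ} (h : x ≡ y [ZMOD p]) :
    (p : ℤ) ∣ ∏ j, ((φ j).1 * x + (φ j).2) ↔ (p : ℤ) ∣ ∏ j, ((φ j).1 * y + (φ j).2) :=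
  (Int.ModEq.prod fun _ _ => (h.mul_left _).add_right _).dvd_iff

lemma mem_rt {k : ℕ} (φ : Fin k → ℕ × ℤ) {p : ℕ} (q : ℕ) (h : q % p ∈ rt φ p) :
    (p : ℤ) ∣ ∏ j, ((φ j).1 * q + (φ j).2 : ℤ) :=
  (prod_per φ (by rw [Int.natCast_mod]; exact Int.mod_modEq _ _)).1 (mem_filter.1 h).2

/-- The singular product. -/
noncomputable def sg {k : ℕ} (φ : Fin k → ℕ × ℤ) : ℝ :=
  ∏' p : Nat.Primes, lc k (fun p => (rt φ p).card) p

theorem tup (k A : ℕ) (hk : 1 ≤ k) {ε : ℝ} (hε : 0 < ε) : ∀ᶠ X : ℕ in atTop,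
    ∀ φ : Fin k → ℕ × ℤ, (∀ j, Pf (Real.log X ^ A) (φ j)) → Function.Injective φ →
    (∀ p : ℕ, p.Prime → (rt φ p).card < p) → 1 ≤ ε * (X / Real.log X ^ k * sg φ) ∧
    ∀ U : Finset ℕ, (∀ q ∈ U, q ∈ Ioc X (X + X) ∧ ∀ j, ((φ j).1 * q + (φ j).2 : ℤ).toNat.Prime) →
    ∀ f, Mul1 f → ∀ α : ℕ → ℂ, (∀ q, ‖α q‖ ≤ 1) →
    ∀ S : Finset (ℕ × ℤ), (∀ ψ ∈ S, Pf (Real.log X ^ A) ψ ∧ ε * (X / Real.log X ^ k * sg φ) ≤
      ‖∑ q ∈ U, α q * f (ψ.1 * q + ψ.2 : ℤ).toNat‖) → (S.card : ℝ) ≤ ε * Real.log X ^ k := by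
  obtain ⟨K, hK⟩ : ∃ K : ℝ, K = 4 * (64 * k) ^ k + 1 := ⟨_, rfl⟩
  have K0 : 0 < K := by rw [hK]; positivity
  obtain ⟨v, hv⟩ : ∃ v : ℝ, v = ε ^ 3 / (6 * 10 ^ 8 * K) := ⟨_, rfl⟩
  have v0 : 0 < v := by rw [hv]; positivity
  obtain ⟨w, w1, w2⟩ := ex_w v0 (4 * k ^ 2)
  obtain ⟨W, hW⟩ : ∃ W, W = ∏ p ∈ PZ w, p := ⟨_, rfl⟩
  have W0 : (0 : ℝ) < W := by exact_mod_cast hW ▸ prod_pos fun p hp => (PZ_prime hp).pos
  have k1 : (1 : ℝ) ≤ k := by exact_mod_cast hk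
  filter_upwards [core (A + k + 1) w (div_pos hε K0), size_ev A one_pos, ev_lin 1 (k + 1),
    ev_lin ((2 * W) ^ 2) (2 * k), TB_tend.eventually_ge_atTop
      (448 * k + 128 * k ^ 3 + 2 * W / ε + 2 * W / v),
    tendsto_natCast_atTop_atTop.eventually_ge_atTop (2 * (w : ℝ) + 16)]
    with X H sz g1 g2 g3 g4 φ hφ inj adm
  have w0 : (0 : ℝ) ≤ w := Nat.cast_nonneg w
  have X0 : (0 : ℝ) < X := by linarith only [g4]
  have eX : Real.exp (Real.log X) = X := Real.exp_log X0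
  generalize Real.log X = l at *
  have i1 : 0 < 2 * W / ε := by positivity
  have i2 : 0 < 2 * W / v := by positivity
  have i3 : 0 < 128 * (k : ℝ) ^ 3 := by positivity
  have l1 : 1 ≤ l := by linarith only [k1, g3, i1, i2, i3]
  have l0 : 0 < l := by linarith only [k1, g3, i1, i2, i3]
  have tp : ∀ y : ℝ, 4 * (k : ℝ) ^ 2 ≤ y →
      ∏ p ∈ PZ y, lc k (fun p => (rt φ p).card) p ≤ 2 * sg φ := fun y hy =>
    lc_tprod (fun p hp => ⟨adm p hp, rt_le hφ hp⟩) (fun p hp h => le_rt hφ inj hp h) hy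
  have lc0 : ∀ y : ℝ, 0 ≤ ∏ p ∈ PZ y, lc k (fun p => (rt φ p).card) p := fun y =>
    prod_nonneg fun p hp => le_trans (by positivity) (inv_le_lc k (PZ_prime hp) (adm p (PZ_prime hp)))
  have s1 : 1 ≤ 2 * W * sg φ := by
    have a : (W : ℝ)⁻¹ ≤ 2 * sg φ := by
      refine le_trans ?_ (tp w w1)
      rw [hW, Nat.cast_prod, ← prod_inv_distrib]
      exact prod_le_prod (fun _ _ => by positivity) fun p hp =>
        inv_le_lc k (PZ_prime hp) (adm p (PZ_prime hp))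
    rw [inv_le_iff_one_le_mul₀ W0] at a
    linarith only [a]
  have s0 : 0 < sg φ := (mul_pos_iff_of_pos_left (show (0 : ℝ) < 2 * W by linarith only [W0])).1 (by linarith only [s1])
  have s2 : ∀ t : ℝ, 0 < t → 2 * W / t ≤ l → 1 ≤ l * (t * sg φ) := fun t t0 h => by
    linarith only [s1, t0, h, s0, mul_le_mul_of_nonneg_right ((div_le_iff₀ t0).1 h) s0.le]
  obtain ⟨M, hM⟩ : ∃ M, M = X / l ^ k * sg φ := ⟨_, rfl⟩
  have M0 : 0 < M := by rw [hM]; positivity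
  have T1 : X / l ^ (k + 1) ≤ ε * M := by
    clear * - X l k ε φ M s2 hε W v k1 g3 i2 i3 X0 l1 hM s0
    calc _ = X / l ^ (k + 1) * 1 := (mul_one _).symm
      _ ≤ X / l ^ (k + 1) * (l * (ε * sg φ)) := by gcongr; exact s2 ε hε (by linarith only [k1, g3, i2, i3])
      _ = _ := by rw [hM]; field_simp; ring
  rw [← hM]
  refine ⟨le_trans (by rw [le_div_iff₀ (by positivity)]; exact g1) T1,
    fun U hU f hf α hα S hS => ?_⟩
  have hI : ∀ q ∈ U, (q : ℤ) ∈ Ioc (X : ℤ) (2 * X) := fun q hq => by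
    have := mem_Ioc.1 (hU q hq).1
    exact mem_Ioc.2 ⟨by omega, by omega⟩
  have nd : ∀ q ∈ U, ∀ p : ℕ, p.Prime → (p : ℝ) < X / 2 →
      ¬ (p : ℤ) ∣ ∏ j, ((φ j).1 * q + (φ j).2 : ℤ) := fun q hq p hp h =>
    nd_prod hp fun j => ⟨(hU q hq).2 j, h.trans_le (sz _ (hφ j) q (hI q hq)).1⟩
  have eY : Real.exp (l / 2) ^ 2 = X := by
    rw [← Real.exp_nat_mul, ← eX]; congr 1; push_cast; ring
  have cU : (U.card : ℝ) ≤ K * M := by
    clear * - l k hk W ε v g3 i1 i2 i3 X l0 k1 w g4 eY w1 φ adm A hφ l1 U hU nd tp M W0 g2 hM s1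
      s0 lc0 X0 K hK α
    have y0 : 14 ≤ l / (32 * k) := by rw [le_div_iff₀ (by positivity)]; linarith only [g3, i1, i2, i3]
    have y1 : 1 ≤ Real.exp (l / (32 * k)) := Real.one_le_exp (by linarith only [y0])
    have y2 : Real.exp (l / (32 * k)) < X / 2 := by
      have a : Real.exp (l / (32 * k)) ≤ Real.exp (l / 2) :=
        Real.exp_le_exp.2 (div_le_div_of_nonneg_left l0.le two_pos (by linarith only [k1]))
      have b : 4 ≤ Real.exp (l / 2) :=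
        (pow_le_pow_iff_left₀ (by norm_num) (Real.exp_pos _).le two_ne_zero).1 (by linarith only [g4, eY])
      nlinarith only [w1, k1, g4, eY, y1, a, i3]
    have a := sieve_up y1 (rt φ) (k := k) (z := Real.exp (l / 8))
      (fun p hp => ⟨filter_subset _ _, adm p hp, rt_le hφ hp⟩)
      (Real.one_lt_exp_iff.2 (by linarith only [k1, g3, i1, i2, i3])) (by
        rw [Real.log_exp, Real.log_exp, mul_add,
          show 2 * k * (l / (32 * k)) = l / 16 by field_simp; ring]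
        linarith only [g3, i1, i2, i3]) X X
    have b := (Nat.cast_le (α := ℝ)).2 (card_le_card (s := U) (t := (Ioc X (X + X)).filter
      fun n => ∀ p ∈ PZ (Real.exp (l / (32 * k))), n % p ∉ rt φ p) fun q hq => mem_filter.2
      ⟨(hU q hq).1, fun p hp h =>
        nd q hq p (PZ_prime hp) (((mem_PZ (by linarith only [y1])).1 hp).2.trans_lt y2) (mem_rt φ q h)⟩)
    have c : Vz (Real.exp (l / (32 * k))) ≤ 64 * k / l := by
      rw [← inv_le_inv₀ (by positivity) (Vz_pos _), inv_div]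
      refine le_trans ?_ ((TE.log_floor_ge y1).trans (Vz_inv_ge _))
      rw [Real.log_exp, show l / (64 * k) = l / (32 * k) / 2 by field_simp; ring]
      linarith only [y0, Real.log_two_lt_d9]
    have d := tp (Real.exp (l / (32 * k))) (by
      have : 4 * (k : ℝ) ^ 2 ≤ l / (32 * k) := by rw [le_div_iff₀ (by positivity)]; linarith only [k1, g3, i1, i2]
      linarith only [this, Real.add_one_le_exp (l / (32 * k))])
    have e : Real.exp (l / 8) ^ 4 ≤ M := by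
      have e1 : 2 * W * l ^ k ≤ Real.exp (l / 2) :=
        (pow_le_pow_iff_left₀ (by positivity) (Real.exp_pos _).le two_ne_zero).1 (by
          rw [eY, mul_pow, ← pow_mul, mul_comm k]; exact g2)
      rw [← Real.exp_nat_mul, show (4 : ℕ) * (l / 8) = l / 2 by push_cast; ring, hM, ← eY,
        div_mul_eq_mul_div, le_div_iff₀ (by positivity)]
      calc _ ≤ Real.exp (l / 2) * l ^ k * (2 * W * sg φ) := le_mul_of_one_le_right (by positivity) s1
        _ = Real.exp (l / 2) * (2 * W * l ^ k) * sg φ := by ring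
        _ ≤ Real.exp (l / 2) * Real.exp (l / 2) * sg φ := by gcongr
        _ = _ := by ring
    rw [lc_prod k (fun p => (rt φ p).card)] at a
    have V0 := Vz_pos (Real.exp (l / (32 * k)))
    have g : 2 * X * (Vz (Real.exp (l / (32 * k))) ^ k * ∏ p ∈ PZ (Real.exp (l / (32 * k))),
        lc k (fun p => (rt φ p).card) p) ≤ 4 * (64 * k) ^ k * M := by
      calc _ ≤ 2 * X * ((64 * k / l) ^ k * (2 * sg φ)) := by gcongr; exact lc0 _
        _ = _ := by rw [hM, div_pow]; ring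
    rw [hK]
    linarith only [a, b, e, g]
  have pw : l ^ A ≤ l ^ (A + k + 1) := pow_le_pow_right₀ l1 (by omega)
  have T := H (fun p q => ¬ (p : ℤ) ∣ ∏ j, ((φ j).1 * q + (φ j).2))
    (fun p x y h k1 k2 => k1 ((prod_per φ h).2 k2)) (U.map ⟨Nat.cast, Nat.cast_injective⟩)
    (fun q hq => by
      clear * - U q w k φ X hq hI nd g4 w0 M ε
      obtain ⟨n, hn, rfl⟩ := mem_map.1 hq
      exact mem_filter.2 ⟨hI n hn, fun p hp => nd n hn p (PZ_prime hp)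
        (by linarith only [g4, w0, ((mem_PZ w0).1 hp).2])⟩) (ε * M)
    (le_trans (div_le_div_of_nonneg_left X0.le (by positivity) (pow_le_pow_right₀ l1 (by omega))) T1)
    (by rw [card_map, div_mul_eq_mul_div, div_le_iff₀ K0]
        linarith only [cU, hε, mul_le_mul_of_nonneg_left cU hε.le])
    f hf (fun q => α q.toNat) (fun _ => hα _) S fun ψ hψ => by
      obtain ⟨⟨u1, u2, u3, u4⟩, u5⟩ := hS ψ hψ
      refine ⟨⟨u1, u2.trans pw, u3.trans pw, u4⟩, ?_⟩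
      simpa only [sum_map, Function.Embedding.coeFn_mk, Int.toNat_natCast] using u5
  have r : rr (PZ w) (fun p q => ¬ (p : ℤ) ∣ ∏ j, ((φ j).1 * q + (φ j).2)) ≤ v * (2 * sg φ) := by
    clear * - w k φ v hk W w2 tp w1 lc0 v0
    have e : rr (PZ w) (fun p q => ¬ (p : ℤ) ∣ ∏ j, ((φ j).1 * q + (φ j).2)) =
        ∏ p ∈ PZ w, (1 - ((rt φ p).card : ℝ) / p) := prod_congr rfl fun p hp => by
      have p0 : (p : ℝ) ≠ 0 := by exact_mod_cast (PZ_prime hp).ne_zero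
      have c := congrArg (Nat.cast : ℕ → ℝ) (card_filter_add_card_filter_not (s := range p)
        fun n : ℕ => (p : ℤ) ∣ ∏ j, ((φ j).1 * n + (φ j).2 : ℤ))
      rw [card_range, Nat.cast_add] at c
      rw [rhoP, eq_sub_of_add_eq' c, sub_div, div_self p0, rt]
    rw [e, lc_prod k (fun p => (rt φ p).card)]
    exact mul_le_mul ((pow_le_of_le_one (Vz_pos w).le (Vz_le_one w) (by omega)).trans w2)
      (tp w w1) (lc0 _) v0.le
  have r0 := (rr_bd (PZ w) (fun p q => ¬ (p : ℤ) ∣ ∏ j, ((φ j).1 * q + (φ j).2))).1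
  have n : X * rr (PZ w) (fun p q => ¬ (p : ℤ) ∣ ∏ j, ((φ j).1 * q + (φ j).2)) + X / l ≤
      3 * v * (M * l ^ k) := by
    clear * - X l v k φ l0 X0 s2 v0 W ε k1 g3 i1 i3 w M hM l1 s0 r
    have a : X / l ≤ X * (v * sg φ) := by
      rw [div_le_iff₀ l0, mul_assoc, mul_comm _ l]
      exact le_mul_of_one_le_right X0.le (s2 v v0 (by linarith only [k1, g3, i1, i3]))
    rw [show M * l ^ k = X * sg φ by rw [hM]; field_simp]
    linarith only [a, r, X0, mul_le_mul_of_nonneg_left r X0.le]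
  rw [card_map] at T
  refine le_of_mul_le_mul_right (T.trans ?_) (show 0 < (ε * M) ^ 2 by positivity)
  calc _ ≤ 2 * 10 ^ 8 * (K * M * (3 * v * (M * l ^ k))) := by clear * - U X w k φ l K M v cU n X0 r0 l1 K0 M0 hv; gcongr
    _ = _ := by rw [hv]; field_simp; ring

open Classical in
theorem fin (k A : ℕ) (hk : 1 ≤ k) {ε : ℝ} (hε : 0 < ε) : ∃ X : ℝ, ∀ x : ℝ, X ≤ x →
    ∀ φ : Fin k → ℕ × ℤ, (∀ j, Pf (Real.log x ^ A) (φ j)) → Function.Injective φ →
    ∀ f, Mul1 f → ∀ α : ℕ → ℂ, (∀ q, ‖α q‖ ≤ 1) →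
    ∀ S : Finset (ℕ × ℤ), (∀ ψ ∈ S, Pf (Real.log x ^ A) ψ ∧
      ε * (x / Real.log x ^ k * sg φ) < ‖∑ q ∈ (range ⌈2 * x⌉₊).filter (fun q : ℕ =>
        x ≤ (q : ℝ) ∧ (q : ℝ) < 2 * x ∧ ∀ j, ((φ j).1 * q + (φ j).2 : ℤ).toNat.Prime),
        α q * f (ψ.1 * q + ψ.2 : ℤ).toNat‖) →
    (S.card : ℝ) ≤ ε * Real.log x ^ k := by
  have e0 : 0 < ε / (4 * 2 ^ k) := by positivity
  obtain ⟨N0, hN0⟩ := eventually_atTop.mp ((tup k A hk e0).and (ev_lin 2 A))
  refine ⟨N0 + 2 * k + 3, fun x hx φ h0 inj f hf α hα S hS => ?_⟩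
  have n0 : (0 : ℝ) ≤ N0 := Nat.cast_nonneg _
  have k0 : (0 : ℝ) ≤ k := Nat.cast_nonneg _
  have x0 : 0 < x := by linarith only [hx]
  have L1 : 1 ≤ Real.log x := (Real.le_log_iff_exp_le x0).mpr (by linarith only [hx, Real.exp_one_lt_d9])
  obtain ⟨N, hN⟩ : ∃ N, N = ⌈x⌉₊ := ⟨_, rfl⟩
  have xN : x ≤ N := hN ▸ Nat.le_ceil x
  have xN' : (N : ℝ) < x + 1 := hN ▸ Nat.ceil_lt_add_one x0.le
  obtain ⟨H, g⟩ := hN0 N (by exact_mod_cast (show (N0 : ℝ) ≤ N by linarith))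
  have lL : Real.log x ≤ Real.log N := Real.log_le_log x0 xN
  have Ll : Real.log N ≤ 2 * Real.log x := by
    clear * - N x k N0 hx xN xN'
    refine (Real.log_le_log (by linarith) (show (N : ℝ) ≤ x ^ 2 by nlinarith only [hx, xN'])).trans ?_
    rw [Real.log_pow, Nat.cast_ofNat]
  have pw := pow_le_pow_left₀ (by linarith) lL A
  have pf : ∀ φ, Pf (Real.log x ^ A) φ → Pf (Real.log N ^ A) φ := fun φ h =>
    ⟨h.1, h.2.1.trans pw, h.2.2.1.trans pw, h.2.2.2⟩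
  obtain ⟨U, hU⟩ : ∃ U, U = (range ⌈2 * x⌉₊).filter (fun q : ℕ =>
    x ≤ (q : ℝ) ∧ (q : ℝ) < 2 * x ∧ ∀ j, ((φ j).1 * q + (φ j).2 : ℤ).toNat.Prime) := ⟨_, rfl⟩
  rw [← hU] at hS
  have mU : ∀ q ∈ U, N ≤ q ∧ q < N + N ∧ ∀ j, ((φ j).1 * q + (φ j).2 : ℤ).toNat.Prime :=
    fun q hq => by
      rw [hU, mem_filter, ← Nat.ceil_le, ← hN] at hq
      exact ⟨hq.2.1, by exact_mod_cast (show (q : ℝ) < N + N by linarith [hq.2.2.1]), hq.2.2.2⟩
  by_cases adm : ∀ p : ℕ, p.Prime → (rt φ p).card < p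
  swap
  · push Not at adm
    obtain ⟨p, hp, adm⟩ := adm
    have e1 : rt φ p = range p := eq_of_subset_of_card_le (filter_subset _ _) (by rwa [card_range])
    have e2 : sg φ = 0 := tprod_of_exists_eq_zero ⟨⟨p, hp⟩, by
      have : (p : ℝ) ≠ 0 := by exact_mod_cast hp.ne_zero
      change lc k (fun p => (rt φ p).card) p = 0
      rw [lc, e1, card_range, div_self this, sub_self, zero_div]⟩
    have e3 : U = ∅ := eq_empty_of_forall_notMem fun q hq => by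
      refine nd_prod hp (fun j => ⟨(mU q hq).2.2 j, ?_⟩)
        (mem_rt φ q (e1 ▸ mem_range.2 (Nat.mod_lt _ hp.pos)))
      obtain ⟨u1, -, u3, -⟩ := pf _ (h0 j)
      have a : (p : ℝ) ≤ k := by exact_mod_cast adm.trans (rt_le h0 hp)
      have b : (N : ℝ) ≤ q := by exact_mod_cast (mU q hq).1
      have c : (q : ℝ) ≤ (φ j).1 * q :=
        le_mul_of_one_le_left (Nat.cast_nonneg _) (by exact_mod_cast u1)
      push_cast
      linarith only [hx, xN, g, u3, a, b, c, neg_abs_le ((φ j).2 : ℝ)]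
    rw [eq_empty_of_forall_notMem (s := S) fun ψ hψ => by simpa [e2, e3] using (hS ψ hψ).2,
      card_empty, Nat.cast_zero]
    positivity
  obtain ⟨H1, H⟩ := H φ (fun j => pf _ (h0 j)) inj adm
  have p1 : (1 : ℝ) ≤ 2 ^ k := one_le_pow₀ one_le_two
  refine (H (U.erase N) (fun q hq => ?_) f hf α hα S fun ψ hψ => ⟨pf _ (hS ψ hψ).1, ?_⟩).trans ?_
  · obtain ⟨q1, q2⟩ := mem_erase.1 hq
    obtain ⟨q3, q4, q5⟩ := mU q q2
    exact ⟨mem_Ioc.2 ⟨by omega, by omega⟩, q5⟩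
  · have h := (hS ψ hψ).2
    have b : ‖∑ q ∈ U, α q * f (ψ.1 * q + ψ.2 : ℤ).toNat‖ ≤
        1 + ‖∑ q ∈ U.erase N, α q * f (ψ.1 * q + ψ.2 : ℤ).toNat‖ := by
      by_cases k : N ∈ U
      · rw [← add_sum_erase _ _ k]
        refine (norm_add_le _ _).trans (add_le_add_left ?_ _)
        rw [norm_mul]
        exact mul_le_one₀ (hα _) (norm_nonneg _) (hf.le _)
      · rw [erase_eq_of_notMem k]
        linarith only []
    have s0 : 0 ≤ sg φ := by
      clear * - k φ N N0 x hx xN L1 lL ε H1 e0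
      by_contra c
      have : (N : ℝ) / Real.log N ^ k * sg φ ≤ 0 :=
        mul_nonpos_of_nonneg_of_nonpos (div_nonneg (by linarith only [hx, xN]) (pow_nonneg (by linarith) _))
          (not_le.1 c).le
      linarith only [H1, e0, this, mul_nonpos_of_nonneg_of_nonpos e0.le this]
    have c : ε / (4 * 2 ^ k) * (N / Real.log N ^ k * sg φ) ≤
        ε / 4 * (2 * x / Real.log x ^ k * sg φ) := by
      clear * - ε k N φ x hε p1 x0 N0 hx xN' L1 lL s0
      gcongr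
      · linarith
      · linarith
    rw [mul_div_assoc 2 x] at c
    linarith only [H1, h, b, c]
  · calc _ ≤ ε / (4 * 2 ^ k) * (2 * Real.log x) ^ k := by gcongr
      _ = ε / 4 * Real.log x ^ k := by rw [mul_pow]; field_simp
      _ ≤ _ := by clear * - x k ε hε L1; gcongr; linarith

end Pool.Agent.Work.MP_d018b2_nt.M
end
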