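import Pool.Agent.Work.MP_51e72e_nt.TETP
import Pool.Agent.Work.MP_d018b2_nt.R.POne
import Pool.Agent.Work.MP_678620_nt.TBSum
import Pool.Agent.Work.MP_678620_nt.TBAsy
import Pool.Agent.Work.MP_678620_nt.Bonf
import Pool.Agent.Work.MP_51e72e_nt.TEExc
import Pool.Agent.Work.MP_678620_nt.TBCount
import Pool.Agent.Work.MP_51e72e_nt.TENum

-- merged part: Pool.Agent.Work.MP_d018b2_nt.M.Pt
section
/-! The weights that replace a multiplicative function, and their pointwise properties. -/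

set_option autoImplicit false
open Finset ArithmeticFunction

namespace Pool.Agent.Work.MP_d018b2_nt.M

open Pool.Agent.Work.MP_678620_nt Pool.Agent.Work.MP_51e72e_nt

/-- Bounded multiplicative functions that are `-1` at the primes. -/
structure Mul1 (f : ℕ → ℂ) : Prop where
  mul : ∀ m n, Nat.Coprime m n → f (m * n) = f m * f n
  le : ∀ n, ‖f n‖ ≤ 1
  pr : ∀ p : ℕ, p.Prime → f p = -1

noncomputable section

/-- The value of `f` at the part of `t` that is free of the primes of `E`. -/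
def gE (f : ℕ → ℂ) (E : Finset ℕ) (t : ℕ) : ℂ :=
  ∏ p ∈ t.primeFactors \ E, f (p ^ t.factorization p)

/-- The smooth coefficient, with a multiplier `c`. -/
def bM (z : ℝ) (f : ℕ → ℂ) (E : Finset ℕ) (c t : ℕ) : ℂ :=
  if c ∣ t ∧ Smo z t then gE f E (t / c) else 0

/-- Rough numbers with a given value of the Moebius function. -/
def wS (z : ℝ) (σ : ℤ) (m : ℕ) : ℝ := if Rou z m ∧ moebius m = σ then 1 else 0

def Dl (z : ℝ) (f : ℕ → ℂ) (E : Finset ℕ) (c : ℕ) (σ : ℤ) (n : ℤ) : ℂ :=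
  conv (bM z f E c) (gam z 1 (wS z σ)) n - conv (bM z f E c) (flat z 1 (wS z σ)) n

def DD (z : ℝ) (f : ℕ → ℂ) (E : Finset ℕ) (c : ℕ) (n : ℤ) : ℂ :=
  Dl z f E c 1 n - Dl z f E c (-1) n

def dl (z : ℝ) (m : ℕ) : ℝ :=
  (gam z 1 (wS z 1) m - gam z 1 (wS z (-1)) m) - (flat z 1 (wS z 1) m - flat z 1 (wS z (-1)) m)

/-- One level. -/
def Pj (z : ℝ) (f : ℕ → ℂ) (E : Finset ℕ) (j : ℕ) (u : ℤ) : ℂ :=
  if wE E u = j then DD z f E 1 u else 0

/-- The weight. -/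
def Ph (z : ℝ) (f : ℕ → ℂ) (E J : Finset ℕ) (u : ℤ) : ℂ := ∑ j ∈ J, (-1) ^ j * Pj z f E j u

end

lemma Mul1.one {f : ℕ → ℂ} (h : Mul1 f) : f 1 = 1 := by
  have := h.mul 2 1 (by norm_num)
  rw [mul_one, h.pr 2 Nat.prime_two] at this
  linear_combination this

lemma Mul1.prod {f : ℕ → ℂ} (h : Mul1 f) {n : ℕ} (hn : n ≠ 0) :
    f n = ∏ p ∈ n.primeFactors, f (p ^ n.factorization p) :=
  Nat.multiplicative_factorization f (fun x y => h.mul x y) h.one hn

lemma mul1_mu : Mul1 fun n => (moebius n : ℂ) :=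
  ⟨fun _ _ h => by rw [isMultiplicative_moebius.map_mul_of_coprime h, Int.cast_mul], fun n => by
    rw [Complex.norm_intCast]; exact_mod_cast abs_moebius_le_one,
    fun p hp => by simp [moebius_apply_prime hp]⟩

lemma Mul1.sqf {f : ℕ → ℂ} (h : Mul1 f) {m : ℕ} (hm : Squarefree m) : f m = moebius m := by
  rw [h.prod hm.ne_zero]
  refine Eq.trans ?_ (mul1_mu.prod hm.ne_zero).symm
  refine prod_congr rfl fun p hp => ?_
  have pp := Nat.prime_of_mem_primeFactors hp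
  rw [Nat.factorization_eq_one_of_squarefree hm pp (Nat.dvd_of_mem_primeFactors hp), pow_one,
    h.pr p pp]
  exact (mul1_mu.pr p pp).symm

lemma gE_le {f : ℕ → ℂ} (h : Mul1 f) (E : Finset ℕ) (t : ℕ) : ‖gE f E t‖ ≤ 1 := by
  rw [gE, norm_prod]
  exact prod_le_one (fun _ _ => norm_nonneg _) fun _ _ => h.le _

lemma gE_mul (f : ℕ → ℂ) {E : Finset ℕ} {p n : ℕ} (hp : p.Prime) (hpE : p ∈ E) (hn : n ≠ 0) :
    gE f E (p * n) = gE f E n := by
  unfold gE
  rw [Nat.primeFactors_mul hp.ne_zero hn, hp.primeFactors, union_sdiff_distrib,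
    sdiff_eq_empty_iff_subset.2 (singleton_subset_iff.2 hpE), empty_union]
  refine prod_congr rfl fun q hq => ?_
  have : p ≠ q := fun e => (mem_sdiff.1 hq).2 (e ▸ hpE)
  rw [Nat.factorization_mul hp.ne_zero hn, hp.factorization, Finsupp.add_apply,
    Finsupp.single_eq_of_ne this.symm, zero_add]

lemma bM_supp (z : ℝ) (f : ℕ → ℂ) (E : Finset ℕ) (c t : ℕ) (h : bM z f E c t ≠ 0) : Smo z t := by
  by_contra hb
  exact h (if_neg fun h' => hb h'.2)

lemma bM_mul {z : ℝ} (f : ℕ → ℂ) {E : Finset ℕ} {c p : ℕ} (hc : 0 < c) (hp : p.Prime) (hpE : p ∈ E)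
    (hpz : (p : ℝ) ≤ z) (hcp : c < p) (n : ℕ) : bM z f E c (p * n) = bM z f E c n := by
  rcases Nat.eq_zero_or_pos n with rfl | hn
  · rw [mul_zero]
  unfold bM
  have h1 : c ∣ p * n ↔ c ∣ n := (TE.tp_cop hc hp hcp).dvd_mul_left
  have h2 : Smo z (p * n) ↔ Smo z n :=
    ⟨fun h q hq hqn => h q hq (hqn.mul_left p), fun h => (TE.tp_smo hp.pos hpz).mul h⟩
  by_cases k : c ∣ n ∧ Smo z n
  · rw [if_pos k, if_pos ⟨h1.2 k.1, h2.2 k.2⟩]
    obtain ⟨n', rfl⟩ := k.1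
    rw [mul_left_comm, Nat.mul_div_cancel_left _ hc, Nat.mul_div_cancel_left _ hc]
    exact gE_mul f hp hpE (by rintro rfl; simp at hn)
  · rw [if_neg k, if_neg fun k' => k ⟨h1.1 k'.1, h2.1 k'.2⟩]

lemma dat (z : ℝ) {f : ℕ → ℂ} (h : Mul1 f) (E : Finset ℕ) (c : ℕ) (σ : ℤ) :
    Dat z 1 (bM z f E c) (wS z σ) := by
  refine ⟨fun n => ?_, bM_supp z f E c, fun n => ?_, fun n => ?_, fun n hn => ⟨?_, Nat.modEq_one⟩⟩
  · unfold bM
    split_ifs
    exacts [gE_le h E _, by simp]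
  · unfold wS
    split_ifs <;> norm_num
  · unfold wS
    split_ifs <;> norm_num
  · by_contra k
    exact hn (if_neg fun h' => k h'.1)

lemma bM_conv {z : ℝ} (f : ℕ → ℂ) (E : Finset ℕ) {c r : ℕ} (hc : 0 < c) (hcz : (c : ℝ) ≤ z)
    (hr : r ≠ 0) {γ : ℕ → ℝ} (hγ : ∀ n, γ n ≠ 0 → Rou z n) :
    conv (bM z f E c) γ ((c * r : ℕ) : ℤ) = gE f E (sp z r) * γ (rp z r) := by
  have hs : Smo z (c * sp z r) := (TE.tp_smo hc hcz).mul (smo_sp z r)
  have e : c * sp z r * rp z r = c * r := by rw [mul_assoc, sp_mul_rp]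
  have h0 : c * r ≠ 0 := mul_ne_zero hc.ne' hr
  have h := sp_eq hs (rou_rp z hr) (e ▸ h0)
  rw [e] at h
  rw [conv_eq (bM_supp z f E c) hγ h0, h.1, h.2, bM, Nat.mul_div_cancel_left _ hc,
    if_pos ⟨dvd_mul_right _ _, hs⟩]

lemma Dl_nat {z : ℝ} {f : ℕ → ℂ} (h : Mul1 f) (E : Finset ℕ) {c r : ℕ} (hc : 0 < c)
    (hcz : (c : ℝ) ≤ z) (hr : r ≠ 0) (σ : ℤ) : Dl z f E c σ ((c * r : ℕ) : ℤ) =
      gE f E (sp z r) * (gam z 1 (wS z σ) (rp z r) - flat z 1 (wS z σ) (rp z r)) := by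
  rw [Dl, bM_conv f E hc hcz hr fun n hn => (gam_supp (dat z h E c σ) n hn).1,
    bM_conv f E hc hcz hr fun n hn => (flat_supp n hn).1, mul_sub]

lemma DD_nat {z : ℝ} {f : ℕ → ℂ} (h : Mul1 f) (E : Finset ℕ) {c r : ℕ} (hc : 0 < c)
    (hcz : (c : ℝ) ≤ z) (hr : r ≠ 0) :
    DD z f E c ((c * r : ℕ) : ℤ) = gE f E (sp z r) * dl z (rp z r) := by
  rw [DD, Dl_nat h E hc hcz hr, Dl_nat h E hc hcz hr, dl]
  push_cast
  ring

lemma DD_nonpos (z : ℝ) (f : ℕ → ℂ) (E : Finset ℕ) (c : ℕ) {n : ℤ} (hn : n ≤ 0) :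
    DD z f E c n = 0 := by
  simp only [DD, Dl, conv_nonpos _ _ hn, sub_self]

lemma DD_mul {z : ℝ} {f : ℕ → ℂ} (h : Mul1 f) (E : Finset ℕ) {c : ℕ} (hc : 0 < c)
    (hcz : (c : ℝ) ≤ z) (u : ℤ) : DD z f E c (c * u) = DD z f E 1 u := by
  rcases le_or_gt u 0 with k | k
  · rw [DD_nonpos _ _ _ _ k, DD_nonpos _ _ _ _ (mul_nonpos_of_nonneg_of_nonpos (by positivity) k)]
  · lift u to ℕ using k.le
    have u0 : u ≠ 0 := by omega
    have := DD_nat (z := z) h E one_pos (le_trans (by exact_mod_cast hc) hcz) u0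
    rw [one_mul] at this
    rw [← Nat.cast_mul, DD_nat h E hc hcz u0, this]

lemma DD_inv {z : ℝ} {f : ℕ → ℂ} (h : Mul1 f) {E : Finset ℕ} {c p : ℕ} (hc : 0 < c) (hp : p.Prime)
    (hpE : p ∈ E) (hpz : (p : ℝ) ≤ z) (hcp : c < p) (n : ℤ) : DD z f E c (p * n) = DD z f E c n := by
  have a := fun σ => conv_mul (bM_supp z f E c) (fun n hn => (gam_supp (dat z h E c σ) n hn).1) hp hpz
    (bM_mul f hc hp hpE hpz hcp) n
  have b := fun σ => conv_mul (bM_supp z f E c) (γ := flat z 1 (wS z σ))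
    (fun n hn => (flat_supp n hn).1) hp hpz (bM_mul f hc hp hpE hpz hcp) n
  simp only [DD, Dl, a, b]

lemma wS_sub (z : ℝ) (m : ℕ) :
    wS z 1 m - wS z (-1) m = if Rou z m then (moebius m : ℝ) else 0 := by
  unfold wS
  by_cases k : Rou z m
  · rcases moebius_eq_or m with e | e | e <;> simp [k, e]
  · simp [k]

lemma gam_diff {z : ℝ} {m : ℕ} (hm : Rou z m) (hs : Squarefree m) :
    gam z 1 (wS z 1) m - gam z 1 (wS z (-1)) m = -(moebius m : ℝ) * Real.log m := by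
  have e : Real.log m = ∑ p ∈ m.primeFactors, Real.log p := by
    conv_lhs => rw [← Nat.prod_primeFactors_of_squarefree hs]
    rw [Nat.cast_prod, Real.log_prod]
    intro p hp
    exact_mod_cast (Nat.prime_of_mem_primeFactors hp).ne_zero
  rw [e, gam, gam, ← sum_sub_distrib, mul_sum]
  refine sum_congr rfl fun p hp => ?_
  have h1 := Nat.prime_of_mem_primeFactors hp
  obtain ⟨c, rfl⟩ := Nat.dvd_of_mem_primeFactors hp
  have k : z < p ∧ p ≡ 1 [MOD 1] := ⟨hm p h1 (dvd_mul_right _ _), Nat.modEq_one⟩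
  rw [if_pos k, if_pos k, Nat.mul_div_cancel_left _ h1.pos, ← sub_mul, wS_sub,
    if_pos (show Rou z c from fun q hq h => hm q hq (h.mul_left _)),
    isMultiplicative_moebius.map_mul_of_coprime (Nat.coprime_of_squarefree_mul hs),
    moebius_apply_prime h1]
  push_cast
  ring

lemma rough_div (z : ℝ) {n : ℕ} (hn : n ≠ 0) :
    |∑ d ∈ n.divisors, if Rou z d then (moebius d : ℝ) else 0| ≤ 1 := by
  have e : n.divisors.filter (Rou z) = (rp z n).divisors := by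
    have r0 : rp z n ≠ 0 := fun h => hn (by rw [← sp_mul_rp z n, h, mul_zero])
    ext d
    rw [mem_filter, Nat.mem_divisors, Nat.mem_divisors]
    constructor
    · rintro ⟨⟨h1, -⟩, h2⟩
      rw [← sp_mul_rp z n] at h1
      exact ⟨((smo_sp z n).spc_cop h2).symm.dvd_of_dvd_mul_left h1, r0⟩
    · rintro ⟨h1, -⟩
      exact ⟨⟨h1.trans (Dvd.intro_left _ (sp_mul_rp z n)), hn⟩,
        fun p hp k => rou_rp z hn p hp (k.trans h1)⟩
  rw [← sum_filter, e]
  have := congrArg (fun g : ArithmeticFunction ℝ => g (rp z n)) (coe_moebius_mul_coe_zeta (R := ℝ))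
  simp only [coe_mul_zeta_apply, intCoe_apply, one_apply] at this
  rw [this]
  split_ifs <;> simp

lemma rough_mu (z : ℝ) (y : ℕ) :
    |∑ d ∈ Icc 1 y, (if Rou z d then (moebius d : ℝ) else 0) / d| ≤ 2 := by
  rcases Nat.eq_zero_or_pos y with rfl | hy
  · simp
  obtain ⟨g, hg⟩ : ∃ g : ℕ → ℝ, g = fun d => if Rou z d then (moebius d : ℝ) else 0 := ⟨_, rfl⟩
  have g1 : ∀ d, |g d| ≤ 1 := fun d => by
    rw [hg]
    dsimp only
    split_ifs
    · exact_mod_cast abs_moebius_le_one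
    · simp
  have y0 : (0 : ℝ) < y := by exact_mod_cast hy
  have e : ∑ d ∈ Icc 1 y, g d * (y / d : ℕ) = ∑ n ∈ Ioc 0 y, ∑ d ∈ n.divisors, g d := by
    simp only [← Nat.Ioc_filter_dvd_card_eq_div, card_filter, Nat.cast_sum, mul_sum]
    rw [sum_comm]
    refine sum_congr rfl fun n hn => ?_
    obtain ⟨n0, n1⟩ := mem_Ioc.1 hn
    simp only [Nat.cast_ite, Nat.cast_one, Nat.cast_zero, mul_ite, mul_one, mul_zero]
    rw [← sum_filter]
    refine sum_congr ?_ fun _ _ => rfl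
    ext d
    rw [mem_filter, mem_Icc, Nat.mem_divisors]
    exact ⟨fun k => ⟨k.2, n0.ne'⟩, fun k => ⟨⟨Nat.pos_of_dvd_of_pos k.1 n0,
      (Nat.le_of_dvd n0 k.1).trans n1⟩, k.1⟩⟩
  have a : |∑ d ∈ Icc 1 y, g d * (y / d : ℕ)| ≤ y := by
    rw [e]
    refine (abs_sum_le_sum_abs _ _).trans ((sum_le_card_nsmul _ _ 1 fun n hn => ?_).trans (by simp))
    rw [hg]
    exact rough_div z (mem_Ioc.1 hn).1.ne'
  have b : |∑ d ∈ Icc 1 y, g d * ((y : ℝ) / d - (y / d : ℕ))| ≤ y := by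
    refine (abs_sum_le_sum_abs _ _).trans ((sum_le_card_nsmul _ _ 1 fun d hd => ?_).trans (by simp))
    rw [abs_mul, ← Nat.floor_div_eq_div (K := ℝ)]
    exact mul_le_one₀ (g1 d) (abs_nonneg _) (Nat.abs_sub_floor_le (by positivity))
  have c : (∑ d ∈ Icc 1 y, g d / d) * y = ∑ d ∈ Icc 1 y, g d * (y / d : ℕ) +
      ∑ d ∈ Icc 1 y, g d * ((y : ℝ) / d - (y / d : ℕ)) := by
    rw [sum_mul, ← sum_add_distrib]
    exact sum_congr rfl fun d _ => by ring
  have d := (abs_add_le _ _).trans (add_le_add a b)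
  rw [← c, abs_mul, abs_of_pos y0, hg] at d
  exact le_of_mul_le_mul_right (d.trans_eq (by ring)) y0

lemma flat_diff {z : ℝ} (hz : 1 ≤ z) (m : ℕ) :
    |flat z 1 (wS z 1) m - flat z 1 (wS z (-1)) m| ≤ 2 * (Vz z)⁻¹ := by
  have V0 := Vz_pos z
  unfold flat
  split_ifs
  swap
  · simpa using V0.le
  have e : (Icc 1 m).filter (fun m' : ℕ => (m' : ℝ) * z < m) = Icc 1 (⌈m / z⌉₊ - 1) := by
    ext d
    rw [mem_filter, mem_Icc, mem_Icc, ← lt_div_iff₀ (by linarith), ← Nat.lt_ceil]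
    have : ⌈m / z⌉₊ ≤ m := Nat.ceil_le.2 (div_le_self (Nat.cast_nonneg _) hz)
    omega
  rw [rhoF, rhoF, e, ← sub_div, ← sum_sub_distrib, abs_div, abs_of_pos V0, div_eq_mul_inv]
  refine mul_le_mul_of_nonneg_right ?_ (inv_pos.2 V0).le
  simp only [← sub_div, wS_sub]
  exact rough_mu z _

lemma dl_le {z : ℝ} (hz : 1 ≤ z) (m : ℕ) : |dl z m| ≤ Real.log m + 2 * (Vz z)⁻¹ := by
  have a := gam_bound (dat z mul1_mu ∅ 1 1) m
  have b := gam_bound (dat z mul1_mu ∅ 1 (-1)) m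
  have c := abs_le.1 (flat_diff hz m)
  rw [dl, abs_le]
  constructor <;> linarith only [a, b, c, a.1, a.2, b.1, b.2, c.1, c.2]

lemma DD_le {z L : ℝ} (hz : 1 ≤ z) {f : ℕ → ℂ} (h : Mul1 f) (E : Finset ℕ) (c : ℕ) {n : ℤ}
    (L0 : 0 ≤ L) (hn : 0 < n → Real.log n ≤ L) : ‖DD z f E c n‖ ≤ L + 2 * (Vz z)⁻¹ := by
  have V0 := inv_pos.2 (Vz_pos z)
  rcases le_or_gt n 0 with k | k
  · rw [DD_nonpos _ _ _ _ k, norm_zero]; positivity
  have k1 := hn k
  lift n to ℕ using k.le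
  have n0 : n ≠ 0 := by omega
  have r0 : rp z n ≠ 0 := fun h => n0 (by rw [← sp_mul_rp z n, h, mul_zero])
  have a := fun σ => conv_eq (bM_supp z f E c) (fun n hn => (gam_supp (dat z h E c σ) n hn).1) n0
  have b := fun σ => conv_eq (bM_supp z f E c) (γ := flat z 1 (wS z σ))
    (fun n hn => (flat_supp n hn).1) n0
  have e : DD z f E c n = bM z f E c (sp z n) * dl z (rp z n) := by
    simp only [DD, Dl, a, b, dl]
    push_cast
    ring
  rw [e, norm_mul, Complex.norm_real, Real.norm_eq_abs]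
  refine (mul_le_of_le_one_left (abs_nonneg _) ((dat z h E c 1).β_le _)).trans ((dl_le hz _).trans ?_)
  have : Real.log (rp z n) ≤ Real.log n := Real.log_le_log (by positivity)
    (by exact_mod_cast Nat.div_le_self _ _)
  rw [Int.cast_natCast] at k1
  linarith

lemma Ph_eq (z : ℝ) (f : ℕ → ℂ) (E J : Finset ℕ) (u : ℤ) :
    Ph z f E J u = if wE E u ∈ J then (-1) ^ wE E u * DD z f E 1 u else 0 := by
  simp only [Ph, Pj, mul_ite, mul_zero]
  rw [sum_ite_eq]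

lemma Ph_le (z : ℝ) (f : ℕ → ℂ) (E J : Finset ℕ) (u : ℤ) : ‖Ph z f E J u‖ ≤ ‖DD z f E 1 u‖ := by
  rw [Ph_eq]
  split_ifs <;> simp

/-- The value of `f` at a typical integer. -/
lemma f_split {z H0 : ℝ} {f : ℕ → ℂ} (h : Mul1 f) {E : Finset ℕ} (hH : H0 ≤ z)
    (hE : ∀ p ∈ E, p.Prime ∧ (p : ℝ) ≤ z ∧ H0 ≤ p) {u : ℕ} (hu : u ≠ 0)
    (hs : ∀ p : ℕ, p.Prime → H0 ≤ p → ¬ p ^ 2 ∣ u) :
    Squarefree (rp z u) ∧ f u = (-1) ^ wE E u * gE f E (sp z u) * moebius (rp z u) := by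
  have dv := sp_mul_rp z u
  have s0 : sp z u ≠ 0 := fun k => hu (by rw [← dv, k, zero_mul])
  have sq : Squarefree (rp z u) := Nat.squarefree_iff_prime_squarefree.2 fun p hp k =>
    hs p hp (hH.trans (rou_rp z hu p hp ((dvd_mul_right p p).trans k)).le)
      (by rw [pow_two]; exact k.trans (Dvd.intro_left _ dv))
  refine ⟨sq, ?_⟩
  have w := TE.tp_wE (z := z) (E := E) one_pos (fun p hp => ⟨(hE p hp).1, (hE p hp).2.1,
    (hE p hp).1.one_lt⟩) u
  rw [one_mul, ← TE.primeFactors_sp z hu] at w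
  conv_lhs => rw [← dv]
  rw [h.mul _ _ ((smo_sp z u).spc_cop (rou_rp z hu)), h.sqf sq, w, h.prod s0,
    ← prod_inter_mul_prod_sdiff _ E, gE, ← prod_const]
  congr 2
  refine prod_congr rfl fun p hp => ?_
  obtain ⟨p1, p2⟩ := mem_inter.1 hp
  have pp := (hE p p2).1
  have a := (pp.dvd_iff_one_le_factorization s0).1 (Nat.dvd_of_mem_primeFactors p1)
  have b : ¬ 2 ≤ (sp z u).factorization p := fun k => hs p pp (hE p p2).2.2
    (((pp.pow_dvd_iff_le_factorization s0).2 k).trans ⟨_, dv.symm⟩)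
  rw [show (sp z u).factorization p = 1 by omega, pow_one, h.pr p pp]

lemma Ph_typ {z H0 Y l δ : ℝ} (hz : 1 ≤ z) {f : ℕ → ℂ} (h : Mul1 f) {E J : Finset ℕ} (hH : H0 ≤ z)
    (hE : ∀ p ∈ E, p.Prime ∧ (p : ℝ) ≤ z ∧ H0 ≤ p) {u : ℕ} (hu : u ≠ 0)
    (hs : ∀ p : ℕ, p.Prime → H0 ≤ p → ¬ p ^ 2 ∣ u) (hY : (sp z u : ℝ) ≤ Y) (hJ : wE E u ∈ J)
    (hl : |Real.log u - l| ≤ δ) :
    ‖Ph z f E J u + l * f u‖ ≤ δ + Real.log Y + 2 * (Vz z)⁻¹ := by
  obtain ⟨sq, e⟩ := f_split h hH hE hu hs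
  have dv := sp_mul_rp z u
  have s0 : sp z u ≠ 0 := fun k => hu (by rw [← dv, k, zero_mul])
  have d := DD_nat (z := z) h E one_pos (by simpa using hz) hu
  rw [one_mul] at d
  have e2 : Ph z f E J u + l * f u = (-1) ^ wE E u * gE f E (sp z u) *
      ((dl z (rp z u) + l * moebius (rp z u) : ℝ) : ℂ) := by
    rw [Ph_eq, if_pos hJ, d, e]
    push_cast
    ring
  rw [e2, norm_mul, norm_mul, norm_pow, norm_neg, norm_one, one_pow, one_mul, Complex.norm_real,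
    Real.norm_eq_abs]
  refine (mul_le_of_le_one_left (abs_nonneg _) (gE_le h E _)).trans ?_
  have lg : Real.log u = Real.log (sp z u) + Real.log (rp z u) := by
    conv_lhs => rw [← dv]
    rw [Nat.cast_mul, Real.log_mul (by exact_mod_cast s0) (by exact_mod_cast sq.ne_zero)]
  have a1 := Real.log_natCast_nonneg (sp z u)
  have a2 := Real.log_le_log (by positivity) hY
  have a3 := abs_le.1 (flat_diff hz (rp z u))
  have a4 := abs_le.1 hl
  rw [dl, gam_diff (rou_rp z hu) sq, abs_le]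
  rcases moebius_ne_zero_iff_eq_or.1 (moebius_ne_zero_iff_squarefree.2 sq) with k | k <;> rw [k] <;>
    push_cast <;> constructor <;> linarith only [lg, a1, a2, a3, a4, a3.1, a3.2, a4.1, a4.2]

end Pool.Agent.Work.MP_d018b2_nt.M
end

-- merged part: Pool.Agent.Work.MP_d018b2_nt.M.Off
section
/-! The weights at two different forms are almost orthogonal in every residue class. -/

set_option autoImplicit false
open Finset Filter

namespace Pool.Agent.Work.MP_d018b2_nt.M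

open Pool.Agent.Work.MP_678620_nt Pool.Agent.Work.MP_51e72e_nt

lemma ev_lin (C : ℝ) (n : ℕ) : ∀ᶠ X : ℕ in atTop, C * Real.log X ^ n ≤ X := by
  filter_upwards [TB_ev_exp C n one_pos, eventually_gt_atTop 0] with X h1 h2
  rwa [Real.rpow_one, Real.exp_log (by exact_mod_cast h2)] at h1

lemma off_re {z : ℝ} {f : ℕ → ℂ} (hf : Mul1 f) {E : Finset ℕ} {a1 a2 : ℕ} (W N j j' : ℕ)
    (b1 b2 t : ℤ) (p1 : 0 < a1) (p2 : 0 < a2) (z1 : (a1 : ℝ) ≤ z) (z2 : (a2 : ℝ) ≤ z)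
    (hE : ∀ p ∈ E, p.Prime ∧ a1 < p ∧ a2 < p) :
    ∑ m ∈ Ioc ((a1 * a2 * N : ℕ) : ℤ) (2 * (a1 * a2 * N : ℕ)),
      (if wE E m = j ∧ m ≡ a2 * (a1 * t + b1) [ZMOD (a1 * a2 * W : ℕ)] then
        (starRingEnd ℂ) (DD z f E a2 m) else 0) *
      (if wE E (m + (a1 * b2 - a2 * b1)) = j' then DD z f E a1 (m + (a1 * b2 - a2 * b1)) else 0)
    = ∑ q ∈ Ioc (N + -b1 / a1 : ℤ) (2 * N + -b1 / a1), if q ≡ t [ZMOD W] then
        (starRingEnd ℂ) (Pj z f E j (a1 * q + b1)) * Pj z f E j' (a2 * q + b2) else 0 := by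
  have e : ∀ m : ℤ, ∀ s u : ℂ,
      (if wE E m = j ∧ m ≡ a2 * (a1 * t + b1) [ZMOD (a1 * a2 * W : ℕ)] then s else 0) * u =
      if m ≡ a2 * b1 [ZMOD (a1 * a2 : ℕ)] then
        (if wE E m = j ∧ m ≡ a2 * (a1 * t + b1) [ZMOD (a1 * a2 * W : ℕ)] then s else 0) * u
      else 0 := fun m s u => by
    by_cases k : m ≡ a2 * b1 [ZMOD (a1 * a2 : ℕ)]
    · rw [if_pos k]
    · rw [if_neg k, if_neg, zero_mul]
      refine fun k' => k ((k'.2.of_dvd (by push_cast; exact dvd_mul_right _ _)).trans ?_)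
      exact (Int.modEq_iff_dvd.2 ⟨-t, by push_cast; ring⟩)
  rw [sum_congr rfl fun m _ => e m _ _, TB_reindex N b1 p1 p2,
    show (N + -b1 / a1 + N : ℤ) = 2 * N + -b1 / a1 by ring]
  refine sum_congr rfl fun q _ => ?_
  have t1 : (a2 * (a1 * q + b1) + (a1 * b2 - a2 * b1) : ℤ) = a1 * (a2 * q + b2) := by ring
  have t2 : (a2 * (a1 * q + b1) : ℤ) ≡ a2 * (a1 * t + b1) [ZMOD (a1 * a2 * W : ℕ)] ↔
      q ≡ t [ZMOD W] := by
    rw [Int.modEq_iff_dvd, Int.modEq_iff_dvd,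
      show (a2 * (a1 * t + b1) - a2 * (a1 * q + b1) : ℤ) = (a1 * a2 : ℕ) * (t - q) by push_cast; ring,
      Nat.cast_mul, mul_dvd_mul_iff_left (by positivity)]
  rw [t1, TB_wE p2 fun p hp => ⟨(hE p hp).1, (hE p hp).2.2⟩,
    TB_wE p1 fun p hp => ⟨(hE p hp).1, (hE p hp).2.1⟩, DD_mul hf E p2 z2, DD_mul hf E p1 z1]
  simp only [t2, Pj]
  by_cases c1 : q ≡ t [ZMOD W] <;> by_cases c2 : wE E (a1 * q + b1) = j <;> simp [c1, c2]

lemma DD_ev : ∀ᶠ X : ℕ in atTop, ∀ f, Mul1 f → ∀ (E : Finset ℕ) (c : ℕ) (n : ℤ),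
    n ≤ (X : ℤ) ^ 3 → ‖DD (zz X) f E c n‖ ≤ 5 * Real.log X := by
  filter_upwards [Vz_inv_le, SPTwo_log] with X h1 h2 f hf E c n hn
  refine (DD_le (z := zz X) (L := 3 * Real.log X) (Real.one_le_exp (Real.rpow_nonneg (by linarith) _)) hf E c
    (by linarith) fun k => ?_).trans (by linarith)
  lift n to ℕ using k.le
  exact spc_log_three (by exact_mod_cast hn)

theorem off (A B : ℕ) {c : ℝ} (hc : 0 < c) : ∃ k0 : ℕ, ∀ W : ℕ, 0 < W → ∀ᶠ X : ℕ in atTop,
    ∀ E : Finset ℕ, Eok X c E → ∀ f, Mul1 f → ∀ (a1 a2 : ℕ) (b1 b2 : ℤ),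
    Lin (Real.log X ^ A) a1 a2 b1 b2 → ∀ J : Finset ℕ, (J.card : ℝ) ≤ Real.log X →
    (∀ j ∈ J, 1 ≤ j ∧ k0 ≤ j ∧ (j : ℝ) ≤ 6 * Real.log (Real.log X)) → ∀ t : ℤ,
    ‖∑ q ∈ Ioc (X : ℤ) (2 * X), if q ≡ t [ZMOD W] then
        (starRingEnd ℂ) (Ph (zz X) f E J (a1 * q + b1)) * Ph (zz X) f E J (a2 * q + b2) else 0‖
      ≤ X / Real.log X ^ B := by
  obtain ⟨k0, H⟩ := R.one_point (2 * A + (B + 6)) 1 le_rfl hc
  refine ⟨k0, fun W hW => ?_⟩
  filter_upwards [H, DD_ev, zz_big A, SPTwo_log, TB_tend.eventually_ge_atTop W,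
    TB_ev_exp 3 (2 * A) hc, ev_lin 400 (2 * A + (B + 4)), eventually_gt_atTop 0]
    with X H hD hz hl hWl g1 g2 X0 E hE f hf a1 a2 b1 b2 hL J hJ hJ' t
  have hs := SPTwo_small hE hl
  obtain ⟨E1, E2, E3, E4⟩ := id hE
  generalize Real.log X = l at *
  generalize zz X = z at *
  have l1 : 1 ≤ l := by linarith only [hl]
  have l0 : 0 < l := by linarith only [hl]
  have t0 : 0 ≤ Real.log l := Real.log_nonneg l1
  have B1 : 1 ≤ l ^ A := hL.B_ge
  have B2 : l ^ (2 * A) = (l ^ A) ^ 2 := by rw [mul_comm, pow_mul]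
  have B4 : 0 < (l ^ A) ^ 2 := by positivity
  have B3 : ∀ k, l ^ (2 * A + k) = (l ^ A) ^ 2 * l ^ k := fun k => by rw [pow_add, B2]
  have l6 : l ≤ l ^ (B + 6) := le_self_pow₀ l1 (by omega)
  have l4 : 1 ≤ l ^ (B + 4) := one_le_pow₀ l1
  have big : ∀ p ∈ E, 2 * (l ^ A) ^ 2 < p := fun p hp => by linarith only [g1, B2, B4, E2 p hp]
  have aa : ((a1 * a2 : ℕ) : ℝ) ≤ (l ^ A) ^ 2 := by
    rw [Nat.cast_mul, sq]; exact mul_le_mul hL.a1_le hL.a2_le (Nat.cast_nonneg _) (by linarith only [B1])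
  have pa : 0 < a1 * a2 := mul_pos hL.a1_pos hL.a2_pos
  have z1 := hL.a1_le.trans hz.1
  have z2 := hL.a2_le.trans hz.1
  have X1 : (1 : ℝ) ≤ X := by exact_mod_cast X0
  have BB : l ^ A ≤ (l ^ A) ^ 2 := le_self_pow₀ B1 two_ne_zero
  have BX : 400 * (l ^ A) ^ 2 ≤ X := by
    rw [B3] at g2
    linarith only [g2, B4, l4, le_mul_of_one_le_right B4.le l4]
  have kk : ∀ j ∈ J, (j : ℝ) ≤ (2 * A + (B + 6) : ℕ) * Real.log l := fun j hj => by
    have := mul_nonneg (Nat.cast_nonneg (α := ℝ) A) t0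
    have := mul_nonneg (Nat.cast_nonneg (α := ℝ) B) t0
    push_cast; linarith [(hJ' j hj).2.2]
  have ed := (TB_ediv a1 b1).trans hL.b1_le
  have one : ∀ j ∈ J, ∀ j' ∈ J, ‖∑ q ∈ Ioc (X : ℤ) (2 * X), if q ≡ t [ZMOD W] then
      (starRingEnd ℂ) (Pj z f E j (a1 * q + b1)) * Pj z f E j' (a2 * q + b2) else 0‖
      ≤ X / l ^ (B + 2) := fun j hj j' hj' => by
    have T := fun σ => H (a1 * a2 * X) ((Nat.le_mul_of_pos_left X pa).trans
      (Nat.le_self_pow two_ne_zero _)) (by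
        rw [sq]
        exact Nat.mul_le_mul_right _ (by exact_mod_cast (aa.trans (by linarith only [B4, BX]) : _ ≤ (X : ℝ))))
      E hE j j' (hJ' j hj).1 (hJ' j' hj').2.1 (kk j hj) (kk j' hj') (a1 * b2 - a2 * b1)
      (a2 * (a1 * t + b1)) (a1 * a2 * W) (sub_ne_zero.mpr hL.det)
      (hL.det_le.trans (by rw [B3]; linarith only [B4, hl, l6, mul_le_mul_of_nonneg_left (hl.trans l6) B4.le]))
      (mul_pos pa hW) (by
        rw [B3, Nat.cast_mul]; exact mul_le_mul aa (hWl.trans l6) (Nat.cast_nonneg _) B4.le)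
      (fun n => (starRingEnd ℂ) (DD z f E a2 n))
      (fun n hn => by
        clear * - z f E a2 n l hD hf hn hl l0
        rw [Complex.norm_conj]
        exact (hD f hf E a2 n hn).trans (by nlinarith only [hl, l0, mul_le_mul_of_nonneg_left hl l0.le]))
      (fun p hp n => by
        simp only [DD_inv hf hL.a2_pos (E1 p hp) hp (hs p hp).2 (hL.big (big p hp)).2.1])
      _ _ (dat z hf E a1 σ)
      fun p hp => bM_mul f hL.a1_pos (E1 p hp) hp (hs p hp).2 (hL.big (big p hp)).1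
    have T2 := (norm_sub_le _ _).trans (add_le_add (T 1) (T (-1)))
    have e : ∀ (x : Prop) [Decidable x] (s u : ℂ),
        (if x then s else 0) - (if x then u else 0) = if x then s - u else 0 := by
      intro x _ s u
      split_ifs <;> simp
    simp only [← sum_sub_distrib, ← mul_sub, e] at T2
    have T3 := (off_re hf W X j j' b1 b2 t hL.a1_pos hL.a2_pos z1 z2 fun p hp =>
      ⟨E1 p hp, (hL.big (big p hp)).1, (hL.big (big p hp)).2.1⟩)
    have T4 := (congrArg norm T3).symm.trans_le T2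
    have sz : ∀ (a : ℕ) (b m : ℤ), (a : ℝ) ≤ l ^ A → |(b : ℝ)| ≤ l ^ A →
        m ≤ max (X : ℤ) (2 * X) + |-b1 / a1| → a * m + b ≤ (X : ℤ) ^ 3 := fun a b m h1 h2 h3 => by
      clear * - m X b1 a1 W X0 a2 h3 a l A B4 BB BX ed h1 X1 b h2 B1
      rw [max_eq_right (by omega)] at h3
      have h4 : (m : ℝ) ≤ 2 * X + |((-b1 / a1 : ℤ) : ℝ)| := by exact_mod_cast h3
      have h5 : (a : ℝ) * m ≤ l ^ A * (3 * X) :=
        (mul_le_mul_of_nonneg_left (h4.trans (by linarith only [B4, BB, BX, ed])) (Nat.cast_nonneg a)).trans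
          (mul_le_mul_of_nonneg_right h1 (by linarith only [B4, BX]))
      have h6 : (X : ℝ) ^ 2 ≤ X ^ 3 := pow_le_pow_right₀ X1 (by norm_num)
      have h7 : (a : ℝ) * m + b ≤ X ^ 3 := by nlinarith [le_abs_self (b : ℝ)]
      exact_mod_cast h7
    have pj : ∀ (i : ℕ) (u : ℤ), u ≤ (X : ℤ) ^ 3 → ‖Pj z f E i u‖ ≤ 5 * l := fun i u hu => by
      unfold Pj
      split_ifs
      exacts [hD f hf E 1 u hu, by rw [norm_zero]; positivity]
    have Sh := SPTwo_shift (fun q => if q ≡ t [ZMOD W] then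
      (starRingEnd ℂ) (Pj z f E j (a1 * q + b1)) * Pj z f E j' (a2 * q + b2) else 0) X (2 * X)
      (-b1 / a1) (B := 5 * l * (5 * l)) (by positivity) fun m hm => by
        split_ifs
        · rw [norm_mul, Complex.norm_conj]
          exact mul_le_mul (pj _ _ (sz _ _ _ hL.a1_le hL.b1_le hm))
            (pj _ _ (sz _ _ _ hL.a2_le hL.b2_le hm)) (norm_nonneg _) (by positivity)
        · rw [norm_zero]; positivity
    have u1 : ((a1 * a2 * X : ℕ) : ℝ) / l ^ (2 * A + (B + 6) + 1) ≤ X / l ^ (B + 2) / 4 := by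
      clear * - a1 a2 X l A B B3 hl l1 aa X0
      rw [add_assoc, B3, Nat.cast_mul, div_div, div_le_div_iff₀ (by positivity) (by positivity)]
      have v1 : l ^ (B + 2) * 4 ≤ l ^ (B + 6 + 1) := by
        rw [show l ^ (B + 6 + 1) = l ^ (B + 2) * (l * l * l ^ 3) by ring]
        have := one_le_pow₀ (n := 3) l1
        exact mul_le_mul_of_nonneg_left (by nlinarith only [this, hl]) (by positivity)
      calc _ ≤ (l ^ A) ^ 2 * X * l ^ (B + 6 + 1) := by gcongr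
        _ = _ := by ring
    have u2 : 8 * |((-b1 / a1 : ℤ) : ℝ)| * (5 * l * (5 * l)) ≤ X / l ^ (B + 2) / 2 := by
      clear * - b1 a1 l X B hl A ed BB B3 g2
      rw [div_div, le_div_iff₀ (by positivity)]
      rw [B3] at g2
      calc _ ≤ 8 * (l ^ A) ^ 2 * (5 * l * (5 * l)) * (l ^ (B + 2) * 2) := by
            gcongr; exact ed.trans BB
        _ = 400 * ((l ^ A) ^ 2 * l ^ (B + 4)) := by ring
        _ ≤ _ := g2
    rw [norm_sub_rev] at Sh
    clear * - X W t z f E j a1 b1 j' a2 b2 l B A T4 Sh u1 u2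
    linarith only [T4, Sh, u1, u2, norm_le_insert' (∑ q ∈ Ioc (X : ℤ) (2 * X), if q ≡ t [ZMOD W] then
      (starRingEnd ℂ) (Pj z f E j (a1 * q + b1)) * Pj z f E j' (a2 * q + b2) else 0)
      (∑ q ∈ Ioc (X + -b1 / a1 : ℤ) (2 * X + -b1 / a1), if q ≡ t [ZMOD W] then
      (starRingEnd ℂ) (Pj z f E j (a1 * q + b1)) * Pj z f E j' (a2 * q + b2) else 0)]
  have e : ∀ q : ℤ, (if q ≡ t [ZMOD W] then
      (starRingEnd ℂ) (Ph z f E J (a1 * q + b1)) * Ph z f E J (a2 * q + b2) else 0) =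
      ∑ j ∈ J, ∑ j' ∈ J, (-1) ^ (j + j') * if q ≡ t [ZMOD W] then
        (starRingEnd ℂ) (Pj z f E j (a1 * q + b1)) * Pj z f E j' (a2 * q + b2) else 0 := fun q => by
    clear * - W q t z f E J a1 b1 a2 b2
    split_ifs
    · rw [Ph, Ph, map_sum, sum_mul_sum]
      refine sum_congr rfl fun j _ => sum_congr rfl fun j' _ => ?_
      rw [map_mul, map_pow, map_neg, map_one]
      ring
    · simp
  simp only [e]
  rw [sum_comm]
  refine (norm_sum_le _ _).trans ((sum_le_card_nsmul _ _ (J.card * (X / l ^ (B + 2)))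
    fun j hj => ?_).trans ?_)
  · rw [sum_comm]
    refine (norm_sum_le _ _).trans ((sum_le_card_nsmul _ _ (X / l ^ (B + 2)) fun j' hj' => ?_).trans
      (by rw [nsmul_eq_mul]))
    rw [← mul_sum, norm_mul, norm_pow, norm_neg, norm_one, one_pow, one_mul]
    exact one j hj j' hj'
  · rw [nsmul_eq_mul]
    calc _ ≤ l * (l * (X / l ^ (B + 2))) := by clear * - J l X B hJ X0 hl; gcongr
      _ = _ := by field_simp; ring

end Pool.Agent.Work.MP_d018b2_nt.M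
end

-- merged part: Pool.Agent.Work.MP_d018b2_nt.M.Abs
section
/-! Abstract tools: a Bessel bound with a majorant, factorial moments and
the splitting of a periodic condition into classes. -/

set_option autoImplicit false
open Finset

namespace Pool.Agent.Work.MP_d018b2_nt.M

open Pool.Agent.Work.MP_678620_nt

lemma bessel {ι κ : Type*} [DecidableEq ι] (S : Finset ι) {P V : Finset κ} (hPV : P ⊆ V)
    (α : κ → ℂ) (hα : ∀ q, ‖α q‖ ≤ 1) (Φ : ι → κ → ℂ) {T D θ : ℝ} (T0 : 0 ≤ T) (θ0 : 0 ≤ θ)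
    (hT : ∀ i ∈ S, T ≤ ‖∑ q ∈ P, α q * Φ i q‖) (hD : ∀ i ∈ S, ∑ q ∈ V, ‖Φ i q‖ ^ 2 ≤ D)
    (hθ : ∀ i ∈ S, ∀ j ∈ S, i ≠ j → ‖∑ q ∈ V, (starRingEnd ℂ) (Φ i q) * Φ j q‖ ≤ θ) :
    (S.card * T) ^ 2 ≤ P.card * (S.card * D + S.card ^ 2 * θ) := by
  have hc : ∀ i, ∃ c : ℂ, ‖c‖ = 1 ∧ ‖∑ q ∈ P, α q * Φ i q‖ = c * ∑ q ∈ P, α q * Φ i q := fun i =>
    Complex.exists_norm_eq_mul_self _
  choose c c1 c2 using hc
  obtain ⟨G, hG⟩ : ∃ G : κ → ℂ, G = fun q => ∑ i ∈ S, c i * Φ i q := ⟨_, rfl⟩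
  have h1 : S.card * T ≤ ∑ q ∈ P, 1 * ‖G q‖ := by
    have e : ((∑ i ∈ S, ‖∑ q ∈ P, α q * Φ i q‖ : ℝ) : ℂ) = ∑ q ∈ P, α q * G q := by
      push_cast
      simp only [c2, hG, mul_sum]
      rw [sum_comm]
      exact sum_congr rfl fun q _ => sum_congr rfl fun i _ => by ring
    have a := card_nsmul_le_sum S _ T hT
    rw [nsmul_eq_mul] at a
    refine a.trans ((le_abs_self _).trans ?_)
    rw [← Real.norm_eq_abs, ← Complex.norm_real, e]
    refine (norm_sum_le _ _).trans (sum_le_sum fun q _ => ?_)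
    rw [norm_mul]
    exact mul_le_mul_of_nonneg_right (hα q) (norm_nonneg _)
  have h2 := sum_mul_sq_le_sq_mul_sq P (fun _ => (1 : ℝ)) fun q => ‖G q‖
  have h3 : ∑ q ∈ P, ‖G q‖ ^ 2 ≤ ∑ q ∈ V, ‖G q‖ ^ 2 :=
    sum_le_sum_of_subset_of_nonneg hPV fun _ _ _ => sq_nonneg _
  have h4 : ∑ q ∈ V, ‖G q‖ ^ 2 ≤ S.card * D + S.card ^ 2 * θ := by
    clear * - κ V G ι S c Φ hG D θ c1 hD θ0 hθ
    have e : ((∑ q ∈ V, ‖G q‖ ^ 2 : ℝ) : ℂ) = ∑ i ∈ S, ∑ j ∈ S,
        (starRingEnd ℂ) (c i) * c j * ∑ q ∈ V, (starRingEnd ℂ) (Φ i q) * Φ j q := by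
      push_cast
      simp only [← Complex.conj_mul', hG, map_sum, sum_mul_sum, map_mul]
      simp only [mul_sum]
      rw [sum_comm]
      refine sum_congr rfl fun i _ => ?_
      rw [sum_comm]
      exact sum_congr rfl fun j _ => sum_congr rfl fun q _ => by ring
    refine (le_abs_self _).trans ?_
    rw [← Real.norm_eq_abs, ← Complex.norm_real, e]
    refine (norm_sum_le _ _).trans ((sum_le_card_nsmul _ _ (D + S.card * θ) fun i hi => ?_).trans ?_)
    · refine (norm_sum_le _ _).trans ?_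
      have b : ∀ j ∈ S, ‖(starRingEnd ℂ) (c i) * c j * ∑ q ∈ V, (starRingEnd ℂ) (Φ i q) * Φ j q‖
          ≤ (if i = j then D else 0) + θ := fun j hj => by
        rw [norm_mul, norm_mul, Complex.norm_conj, c1, c1, one_mul, one_mul]
        split_ifs with k
        · subst k
          refine (norm_sum_le _ _).trans (le_trans (le_of_eq ?_) ((hD i hi).trans (by linarith)))
          exact sum_congr rfl fun q _ => by rw [norm_mul, Complex.norm_conj, sq]
        · linarith [hθ i hi j hj k]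
      refine (sum_le_sum b).trans (le_of_eq ?_)
      rw [sum_add_distrib, sum_ite_eq, if_pos hi, sum_const, nsmul_eq_mul]
    · rw [nsmul_eq_mul]
      exact le_of_eq (by ring)
  refine (pow_le_pow_left₀ (by positivity) h1 2).trans (h2.trans ?_)
  rw [one_pow, sum_const, nsmul_eq_mul, mul_one]
  exact mul_le_mul_of_nonneg_left (h3.trans h4) (Nat.cast_nonneg _)

lemma tk_mom {ι : Type*} (I : Finset ι) (μ : ι → ℝ) (E : Finset ℕ) (D : ι → ℕ → Prop)
    [∀ n, DecidablePred (D n)] (k : ℕ) :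
    ∑ n ∈ I, μ n * ((E.filter (D n)).card.choose k : ℝ) =
      ∑ U ∈ E.powersetCard k, ∑ n ∈ I with ∀ p ∈ U, D n p, μ n := by
  simp only [sum_filter]
  rw [sum_comm]
  refine sum_congr rfl fun n _ => ?_
  rw [← sum_filter, sum_const, nsmul_eq_mul, mul_comm, ← card_powersetCard]
  congr 3
  ext U
  simp only [mem_powersetCard, mem_filter, subset_iff]
  constructor
  · rintro ⟨h1, h2⟩
    exact ⟨⟨fun p hp => (h1 hp).1, h2⟩, fun p hp => (h1 hp).2⟩
  · rintro ⟨⟨h1, h2⟩, h3⟩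
    exact ⟨fun p hp => ⟨h1 hp, h3 p hp⟩, h2⟩

/-- A periodic condition splits into residue classes. -/
lemma per_sum (I : Finset ℤ) (G : ℤ → ℂ) (P : ℤ → Prop) [DecidablePred P] {W : ℕ} (hW : 0 < W)
    (per : ∀ x y : ℤ, x ≡ y [ZMOD W] → P x → P y) {θ : ℝ} (θ0 : 0 ≤ θ)
    (h : ∀ t : ℤ, ‖∑ q ∈ I, if q ≡ t [ZMOD W] then G q else 0‖ ≤ θ) :
    ‖∑ q ∈ I with P q, G q‖ ≤ W * θ := by
  have W0 : (0 : ℤ) < W := by exact_mod_cast hW
  rw [← sum_fiberwise_of_maps_to (g := fun q : ℤ => q % W) (t := Ico (0 : ℤ) W) fun q _ =>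
    mem_Ico.2 ⟨Int.emod_nonneg _ W0.ne', Int.emod_lt_of_pos _ W0⟩]
  refine (norm_sum_le _ _).trans ((sum_le_card_nsmul _ _ θ fun t ht => ?_).trans (by simp))
  have et : t % W = t := Int.emod_eq_of_lt (mem_Ico.1 ht).1 (mem_Ico.1 ht).2
  by_cases k : P t
  · refine le_trans (le_of_eq ?_) (h t)
    rw [filter_filter, sum_filter]
    refine congrArg _ (sum_congr rfl fun q _ => if_congr ?_ rfl rfl)
    rw [Int.ModEq, et]
    exact ⟨fun u => u.2, fun u => ⟨per t q (by rw [Int.ModEq, et, u]) k, u⟩⟩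
  · rw [sum_eq_zero, norm_zero]
    · exact θ0
    · intro q hq
      simp only [mem_filter] at hq
      exact absurd (per q t (by rw [Int.ModEq, et, hq.2]) hq.1.2) k

/-- Integers up to `M` with a divisor in a given family. -/
lemma cover (M : ℕ) (s : Finset ℕ) (g : ℕ → ℕ) :
    ((s.biUnion fun i => (Ioc 0 M).filter fun n => g i ∣ n).card : ℝ) ≤
      M * ∑ i ∈ s, (g i : ℝ)⁻¹ := by
  refine (Nat.cast_le.2 card_biUnion_le).trans ?_
  rw [Nat.cast_sum, mul_sum]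
  refine sum_le_sum fun i _ => ?_
  rw [Nat.Ioc_filter_dvd_card_eq_div, ← div_eq_mul_inv]
  exact Nat.cast_div_le

end Pool.Agent.Work.MP_d018b2_nt.M
end

-- merged part: Pool.Agent.Work.MP_d018b2_nt.M.Cnt
section
/-! Counting the atypical values of a form. -/

set_option autoImplicit false
open Finset Filter

namespace Pool.Agent.Work.MP_d018b2_nt.M

open Pool.Agent.Work.MP_678620_nt Pool.Agent.Work.MP_51e72e_nt

/-- A large prime square divides `u`, or the smooth part of `u` is large. -/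
def Bad (z H0 Y : ℝ) (u : ℕ) : Prop := (∃ p : ℕ, p.Prime ∧ H0 ≤ p ∧ p ^ 2 ∣ u) ∨ Y < sp z u

noncomputable instance (z H0 Y : ℝ) : DecidablePred (Bad z H0 Y) := fun _ =>
  Classical.propDecidable _

lemma bad_card {z H0 Y : ℝ} (h0 : 0 < H0) (M : ℕ) :
    (((Ioc 0 M).filter (Bad z H0 Y)).card : ℝ) ≤ M * (2 / H0) +
      M * ∑ d ∈ (Icc 1 M).filter (fun d : ℕ => Smo z d ∧ Y < d), (d : ℝ)⁻¹ := by
  have c0 : 0 < ⌈H0⌉₊ := Nat.ceil_pos.2 h0
  have sub : (Ioc 0 M).filter (Bad z H0 Y) ⊆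
      ((Ioo (⌈H0⌉₊ - 1) (M + 1)).biUnion fun i => (Ioc 0 M).filter fun n => i ^ 2 ∣ n) ∪
        ((Icc 1 M).filter (fun d : ℕ => Smo z d ∧ Y < d)).biUnion fun i =>
          (Ioc 0 M).filter fun n => i ∣ n := by
    intro n hn
    obtain ⟨hn, nt⟩ := mem_filter.1 hn
    obtain ⟨n0, n1⟩ := mem_Ioc.1 hn
    rcases nt with ⟨p, hp, h1, h2⟩ | h
    · have a := Nat.ceil_le.2 h1
      have b := (Nat.le_self_pow two_ne_zero p).trans (Nat.le_of_dvd n0 h2)
      exact mem_union_left _ (mem_biUnion.2 ⟨p, mem_Ioo.2 ⟨by omega, by omega⟩,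
        mem_filter.2 ⟨hn, h2⟩⟩)
    · have dv : sp z n ∣ n := ⟨_, (sp_mul_rp z n).symm⟩
      exact mem_union_right _ (mem_biUnion.2 ⟨sp z n, mem_filter.2 ⟨mem_Icc.2
        ⟨Nat.pos_of_dvd_of_pos dv n0, (Nat.le_of_dvd n0 dv).trans n1⟩, smo_sp _ _, h⟩,
        mem_filter.2 ⟨hn, dv⟩⟩)
  refine (Nat.cast_le.2 ((card_le_card sub).trans (card_union_le _ _))).trans ?_
  rw [Nat.cast_add]
  refine add_le_add ((cover M _ fun i => i ^ 2).trans ?_) (cover M _ fun i => i)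
  simp only [Nat.cast_pow]
  refine mul_le_mul_of_nonneg_left ((sum_Ioo_inv_sq_le _ _).trans ?_) (Nat.cast_nonneg _)
  rw [Nat.cast_sub c0, Nat.cast_one, sub_add_cancel]
  exact div_le_div_of_nonneg_left zero_le_two h0 (Nat.le_ceil _)

lemma bad_ev (A B : ℕ) {c : ℝ} (hc : 0 < c) : ∀ᶠ X : ℕ in atTop, ∀ (a : ℕ) (b : ℤ), 0 < a →
    (∀ q ∈ Ioc (X : ℤ) (2 * X), 0 < a * q + b ∧ ((a * q + b : ℤ) : ℝ) ≤ 4 * Real.log X ^ A * X) →
    (((Ioc (X : ℤ) (2 * X)).filter fun q => Bad (zz X) (Real.exp (Real.log X ^ c)) (TE.YY X)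
      (a * q + b).toNat).card : ℝ) ≤ X / Real.log X ^ B := by
  filter_upwards [TE.scales, TB_ev_exp 16 (A + B) hc,
    TB_ev_exp (8 * Real.exp 292) (A + B + 4) (show (0 : ℝ) < 2 / 100 by norm_num),
    TE.rpow_le_rpow_log 4 (show (2 / 100 : ℝ) < 3 / 100 by norm_num)] with X hs h1 h5 h6 a b ha hq
  obtain ⟨-, l2, z2, -⟩ := hs
  have Y0 : 0 < TE.YY X := Real.exp_pos _
  have H0 := Real.exp_pos (Real.log X ^ c)
  obtain ⟨M, hM⟩ : ∃ M, M = ⌊4 * Real.log X ^ A * X⌋₊ := ⟨_, rfl⟩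
  have M1 : (M : ℝ) ≤ 4 * Real.log X ^ A * X := hM ▸ Nat.floor_le (by positivity)
  refine le_trans (Nat.cast_le.2 (card_le_card_of_injOn (fun q => (a * q + b).toNat)
    (t := (Ioc 0 M).filter (Bad (zz X) (Real.exp (Real.log X ^ c)) (TE.YY X))) (fun q hq' => ?_)
    fun q hq' r hr' e => ?_)) ((bad_card H0 M).trans ?_)
  · obtain ⟨u1, u2⟩ := mem_filter.1 (mem_coe.1 hq')
    obtain ⟨u3, u4⟩ := hq q u1
    refine mem_coe.2 (mem_filter.2 ⟨mem_Ioc.2 ⟨by dsimp only; omega, hM ▸ Nat.le_floor ?_⟩, u2⟩)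
    rwa [← Int.cast_natCast, Int.toNat_of_nonneg u3.le]
  · have u1 := (hq q (mem_filter.1 (mem_coe.1 hq')).1).1
    have u2 := (hq r (mem_filter.1 (mem_coe.1 hr')).1).1
    have : (a : ℤ) * q = a * r := by dsimp only at e; omega
    exact mul_left_cancel₀ (by exact_mod_cast ha.ne') this
  have lz : Real.log (zz X) = Real.log X ^ (24 / 25 : ℝ) := Real.log_exp _
  have lY : Real.log (TE.YY X) = Real.log X ^ (99 / 100 : ℝ) := Real.log_exp _
  generalize Real.log X = l at *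
  have l0 : 0 < l := by linarith only [l2]
  have L1 : 1 ≤ l ^ (24 / 25 : ℝ) := Real.one_le_rpow (by linarith only [l2]) (by norm_num)
  have Ll : l ^ (24 / 25 : ℝ) ≤ l := by
    clear * - l l2
    simpa using Real.rpow_le_rpow_of_exponent_le (show 1 ≤ l by linarith)
      (show (24 / 25 : ℝ) ≤ 1 by norm_num)
  have e5 := TE.TEExc_rankin (lz ▸ L1) z2 Y0 ((Icc 1 M).filter
    (fun d : ℕ => Smo (zz X) d ∧ TE.YY X < d)) fun s hs => (mem_filter.1 hs).2
  have e6 : l ^ (99 / 100 : ℝ) / (4 * l ^ (24 / 25 : ℝ)) = l ^ (3 / 100 : ℝ) / 4 := by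
    rw [show (99 / 100 : ℝ) = 3 / 100 + 24 / 25 by norm_num, Real.rpow_add l0]
    field_simp
  have e7 : Real.exp (4 * (Real.log (l ^ (24 / 25 : ℝ)) + 73) - l ^ (3 / 100 : ℝ) / 4) ≤
      1 / (8 * l ^ (A + B)) := by
    clear * - l L1 Ll A B h6 l0 l2 h5
    have := Real.log_le_log (by linarith only [L1]) Ll
    refine (Real.exp_le_exp.2 (show _ ≤ (4 : ℕ) * Real.log l + 292 - l ^ (2 / 100 : ℝ) by
      push_cast; linarith only [h6, this])).trans ?_
    rw [Real.exp_sub, Real.exp_add, ← Real.log_pow, Real.exp_log (pow_pos l0 4),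
      div_le_div_iff₀ (Real.exp_pos _) (by positivity), one_mul]
    refine le_trans (le_of_eq ?_) h5
    ring
  rw [lz, lY, e6] at e5
  calc _ ≤ 4 * l ^ A * X * (2 / (16 * l ^ (A + B))) + 4 * l ^ A * X * (1 / (8 * l ^ (A + B))) := by
        clear * - M l c A X B M1 l2 h1 e5 e7
        gcongr
        exact e5.trans e7
    _ = _ := by field_simp; ring

end Pool.Agent.Work.MP_d018b2_nt.M
end

-- merged part: Pool.Agent.Work.MP_d018b2_nt.M.Mom
section
/-! Joint factorial moments of the levels of two forms on a set given by local conditions. -/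

set_option autoImplicit false
open Finset

namespace Pool.Agent.Work.MP_d018b2_nt.M

open Pool.Agent.Work.MP_678620_nt

section

variable (G : Finset ℕ) (Q : ℕ → ℤ → Prop) [∀ p, DecidablePred (Q p)]

/-- The integers of `(N, 2N]` with local conditions at the primes of `G`. -/
noncomputable def VV (N : ℕ) : Finset ℤ := (Ioc (N : ℤ) (2 * N)).filter fun q => ∀ p ∈ G, Q p q

/-- Their density. -/
noncomputable def rr : ℝ := ∏ p ∈ G, (rhoP Q p : ℝ) / p

lemma rr_bd : 0 ≤ rr G Q ∧ rr G Q ≤ 1 :=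
  ⟨prod_nonneg fun _ _ => by positivity, prod_le_one (fun _ _ => by positivity) fun p _ =>
    div_le_one_of_le₀ (by exact_mod_cast (card_filter_le _ _).trans (card_range p).le)
      (Nat.cast_nonneg _)⟩

variable {G} (hG : ∀ p ∈ G, p.Prime) (per : ∀ (p : ℕ) (x y : ℤ), x ≡ y [ZMOD p] → Q p x → Q p y)
include hG per

lemma cnt_box {U U' : Finset ℕ} {a a' : ℕ} {b b' : ℤ} {H1 : ℝ} (h1 : 0 ≤ H1)
    (hU : ∀ p ∈ U, p.Prime ∧ p ∉ G ∧ ¬ (p : ℤ) ∣ a ∧ (p : ℝ) ≤ H1)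
    (hU' : ∀ p ∈ U', p.Prime ∧ p ∉ G ∧ ¬ (p : ℤ) ∣ a' ∧ (p : ℝ) ≤ H1)
    (hd : ∀ p ∈ U, p ∈ U' → ¬ (p : ℤ) ∣ a * b' - a' * b) (N : ℕ) :
    |((((VV G Q N).filter fun q => ∀ p ∈ U, (p : ℤ) ∣ a * q + b).filter fun q =>
        ∀ p ∈ U', (p : ℤ) ∣ a' * q + b').card : ℝ)
      - N * rr G Q * ((∏ p ∈ U, (p : ℝ)⁻¹) * ∏ p ∈ U', (p : ℝ)⁻¹)|
      ≤ N * ((∏ p ∈ U, (p : ℝ)⁻¹) * (∏ p ∈ U', (p : ℝ)⁻¹) * if Disjoint U U' then 0 else 1)
        + (∏ p ∈ G, p : ℕ) * H1 ^ (U.card + U'.card) := by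
  obtain ⟨r0, r1⟩ := rr_bd G Q
  split_ifs with k
  swap
  · obtain ⟨p, p1, p2⟩ := not_disjoint_iff.mp k
    rw [filter_eq_empty_iff.mpr, card_empty, Nat.cast_zero,
      zero_sub, abs_neg, abs_of_nonneg (by positivity), mul_one, mul_right_comm]
    · exact (mul_le_of_le_one_right (by positivity) r1).trans
        (le_add_of_nonneg_right (by positivity))
    · intro n hn k'
      exact TB_not_both (hd p p1 p2) n ((mem_filter.1 hn).2 p p1) (k' p p2)
  have dG : Disjoint G (U ∪ U') := disjoint_right.2 fun p hp =>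
    (mem_union.1 hp).elim (fun h => (hU p h).2.1) fun h => (hU' p h).2.1
  have H := box_int (G ∪ (U ∪ U')) (fun p hp => (mem_union.1 hp).elim (hG p) fun h =>
      (mem_union.1 h).elim (fun h => (hU p h).1) fun h => (hU' p h).1)
    (fun p y => (p ∈ G → Q p y) ∧ (p ∈ U → (p : ℤ) ∣ a * y + b) ∧ (p ∈ U' → (p : ℤ) ∣ a' * y + b'))
    (fun p x y h k => ⟨fun u => per p x y h (k.1 u),
      fun u => ((h.mul_left _).add_right _).dvd_iff.1 (k.2.1 u),
      fun u => ((h.mul_left _).add_right _).dvd_iff.1 (k.2.2 u)⟩) subset_rfl 0 N N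
  simp only [sdiff_self, bot_eq_empty, sum_empty, zero_add, pow_one, zero_div, mul_zero, add_zero,
    mul_one, ← two_mul] at H
  rw [prod_union dG, prod_union dG, prod_union k, prod_union k] at H
  rw [VV, filter_filter, filter_filter, mul_zero, mul_zero, zero_add, rr, mul_assoc]
  refine le_trans (le_of_eq ?_) (H.trans ?_)
  · congr 3
    · congr 1
      refine filter_congr fun q _ => ⟨fun h p _ => ⟨h.1 p, h.2.1 p, h.2.2 p⟩, fun h =>
        ⟨fun p hp => (h p (mem_union_left _ hp)).1 hp, fun p hp =>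
          (h p (mem_union_right _ (mem_union_left _ hp))).2.1 hp, fun p hp =>
          (h p (mem_union_right _ (mem_union_right _ hp))).2.2 hp⟩⟩
    · congr 1
      · refine prod_congr rfl fun p hp => ?_
        have c1 : p ∉ U := fun h => (hU p h).2.1 hp
        have c2 : p ∉ U' := fun h => (hU' p h).2.1 hp
        simp only [rhoP, hp, c1, c2, true_imp_iff, false_imp_iff, and_true]
      congr 1
      · refine prod_congr rfl fun p hp => ?_
        have c2 : p ∉ U' := disjoint_left.1 k hp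
        simp only [rhoP, hp, (hU p hp).2.1, c2, true_imp_iff, false_imp_iff, and_true, true_and]
        rw [TB_root (hU p hp).1 (hU p hp).2.2.1, Nat.cast_one, one_div]
      · refine prod_congr rfl fun p hp => ?_
        have c2 : p ∉ U := disjoint_right.1 k hp
        simp only [rhoP, hp, (hU' p hp).2.1, c2, true_imp_iff, false_imp_iff, true_and]
        rw [TB_root (hU' p hp).1 (hU' p hp).2.2.1, Nat.cast_one, one_div]
  · rw [Nat.cast_prod, pow_add, ← prod_const, ← prod_const]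
    gcongr with p hp p hp
    exacts [(hU p hp).2.2.2, (hU' p hp).2.2.2]

lemma VV_card (N : ℕ) : ((VV G Q N).card : ℝ) ≤ N * rr G Q + (∏ p ∈ G, p : ℕ) := by
  have := (abs_le.1 (cnt_box Q hG per (U := ∅) (U' := ∅) (a := 0) (a' := 0) (b := 0) (b' := 0)
    zero_le_one (by simp) (by simp) (by simp) N)).2
  simp only [notMem_empty, false_imp_iff, implies_true, filter_true, prod_empty, mul_one,
    disjoint_empty_left, if_true, mul_zero, one_pow, zero_add] at this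
  linarith

lemma mom {E : Finset ℕ} {a a' : ℕ} {b b' : ℤ} {H0 H1 : ℝ} (h0 : 0 < H0) (h1 : 0 ≤ H1)
    (hE : ∀ p ∈ E, p.Prime ∧ p ∉ G ∧ ¬ (p : ℤ) ∣ a ∧ ¬ (p : ℤ) ∣ a' ∧ H0 ≤ p ∧ (p : ℝ) ≤ H1)
    (i j : ℕ) (hd : j = 0 ∨ ∀ p ∈ E, ¬ (p : ℤ) ∣ a * b' - a' * b) (N : ℕ) :
    |∑ q ∈ VV G Q N, ((wE E (a' * q + b')).choose j : ℝ) * (wE E (a * q + b)).choose i
      - N * rr G Q * (ek E i * ek E j)|
      ≤ N * (Real.exp (∑ q ∈ E, (q : ℝ)⁻¹) ^ 2 * (i / H0))
        + (∏ p ∈ G, p : ℕ) * H1 ^ (2 * (i + j)) := by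
  have cE := TB_card_E h1 fun p hp => ⟨(hE p hp).1, (hE p hp).2.2.2.2.2⟩
  have cP : ∀ k, ((E.powersetCard k).card : ℝ) ≤ H1 ^ k := fun k => by
    rw [card_powersetCard]
    refine le_trans ?_ (pow_le_pow_left₀ (Nat.cast_nonneg _) cE k)
    exact_mod_cast Nat.choose_le_pow _ _
  have m : ek E i * ek E j = ∑ S1 ∈ E.powersetCard i, ∑ S2 ∈ E.powersetCard j,
      (∏ p ∈ S1, (p : ℝ)⁻¹) * ∏ p ∈ S2, (p : ℝ)⁻¹ := by rw [ek, ek, esym, esym, sum_mul_sum]
  have m2 := TB_overlap h0 (fun p hp => (hE p hp).2.2.2.2.1) i j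
  have e := fun I : Finset ℤ => tk_mom I (fun _ => 1) E (fun q p => (p : ℤ) ∣ a' * q + b') j
  simp only [one_mul, sum_const, nsmul_eq_mul, mul_one] at e
  unfold wE
  rw [tk_mom, m, mul_sum, ← sum_sub_distrib]
  simp only [e, mul_sum, ← sum_sub_distrib]
  refine (abs_sum_le_sum_abs _ _).trans ((sum_le_sum fun U hU => (abs_sum_le_sum_abs _ _).trans
    (sum_le_sum fun U' hU' => cnt_box Q hG per h1
      (fun p hp => have := hE p ((mem_powersetCard.1 hU).1 hp)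
        ⟨this.1, this.2.1, this.2.2.1, this.2.2.2.2.2⟩)
      (fun p hp => have := hE p ((mem_powersetCard.1 hU').1 hp)
        ⟨this.1, this.2.1, this.2.2.2.1, this.2.2.2.2.2⟩)
      (fun p hp hp' => hd.elim (fun k => absurd ((mem_powersetCard.1 hU').2.trans k)
        (card_ne_zero_of_mem hp')) fun k => k p ((mem_powersetCard.1 hU).1 hp)) N)).trans ?_)
  simp only [sum_add_distrib, ← mul_sum]
  refine add_le_add (mul_le_mul_of_nonneg_left ?_ (Nat.cast_nonneg _))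
    (mul_le_mul_of_nonneg_left ?_ (Nat.cast_nonneg _))
  · simpa only [← mul_sum] using m2
  · rw [sum_congr rfl fun U hU => sum_congr rfl fun U' hU' => by
      rw [(mem_powersetCard.1 hU).2, (mem_powersetCard.1 hU').2], sum_const, sum_const,
      nsmul_eq_mul, nsmul_eq_mul]
    calc _ ≤ H1 ^ i * (H1 ^ j * H1 ^ (i + j)) := by clear * - i E H1 j cP h1; gcongr <;> exact cP _
      _ = _ := by ring

end

/-- The centred square of the deviation of the level from its mean. -/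
noncomputable def ps (E : Finset ℕ) (w : ℕ) : ℝ :=
  ((w : ℝ) - ek E 1) ^ 2 - (2 * ek E 2 + ek E 1 - ek E 1 ^ 2)

/-- Its coefficients in the binomial basis. -/
noncomputable def pc (E : Finset ℕ) (i : ℕ) : ℝ :=
  if i = 0 then 2 * (ek E 1 ^ 2 - ek E 2) - ek E 1 else if i = 1 then 1 - 2 * ek E 1 else 2

lemma ek_one (E : Finset ℕ) : ek E 1 = ∑ p ∈ E, (p : ℝ)⁻¹ := by
  rw [ek, esym, powersetCard_one, sum_map]; simp

lemma ek_two (E : Finset ℕ) : 2 * ek E 2 ≤ ek E 1 ^ 2 := by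
  have := esym_le_pow (I := E) (ν := fun p => (p : ℝ)⁻¹) (fun _ _ => by positivity) 2
  rw [Nat.factorial_two, Nat.cast_ofNat, ← ek_one] at this
  linarith only [this, show ek E 2 = esym E (fun p => (p : ℝ)⁻¹) 2 from rfl]

lemma ps_eq (E : Finset ℕ) (w : ℕ) : ps E w = ∑ i ∈ range 3, pc E i * (w.choose i : ℝ) := by
  simp only [sum_range_succ, range_zero, sum_empty, pc, ps, Nat.cast_choose_two,
    Nat.choose_one_right, Nat.choose_zero_right]
  norm_num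
  ring

lemma pc_zero (E : Finset ℕ) : ∑ i ∈ range 3, pc E i * ek E i = 0 := by
  simp only [sum_range_succ, range_zero, sum_empty, pc, show ek E 0 = 1 from esym_zero _ _]
  norm_num
  ring

lemma pc_abs {E : Finset ℕ} (h : 1 ≤ ek E 1) : ∑ i ∈ range 3, |pc E i| ≤ 7 * ek E 1 ^ 2 := by
  have a := ek_two E
  have b := ek_nonneg E 2
  have c : ek E 1 ≤ ek E 1 ^ 2 := le_self_pow₀ h two_ne_zero
  have d : |2 * (ek E 1 ^ 2 - ek E 2) - ek E 1| ≤ 2 * ek E 1 ^ 2 := abs_le.2 ⟨by linarith, by linarith⟩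
  have e : |1 - 2 * ek E 1| ≤ 2 * ek E 1 ^ 2 := abs_le.2 ⟨by linarith, by linarith⟩
  simp only [sum_range_succ, range_zero, sum_empty, pc]
  norm_num
  linarith

lemma pow_four_le (w : ℕ) : (w : ℝ) ^ 4 ≤ 256 * (w.choose 4 + 1) := by
  rcases le_or_gt w 4 with h | h
  · have : (w : ℝ) ≤ 4 := by exact_mod_cast h
    have := pow_le_pow_left₀ (Nat.cast_nonneg w) this 4
    linarith only [this, Nat.cast_nonneg (α := ℝ) (w.choose 4)]
  obtain ⟨k, rfl⟩ := Nat.exists_eq_add_of_le' h.le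
  have e := Nat.descFactorial_eq_factorial_mul_choose (k + 4) 4
  simp only [Nat.descFactorial_succ, Nat.descFactorial_zero, Nat.factorial,
    show k + 4 - 3 = k + 1 from rfl, show k + 4 - 2 = k + 2 from rfl,
    show k + 4 - 1 = k + 3 from rfl, Nat.sub_zero] at e
  have e' := congrArg (Nat.cast : ℕ → ℝ) e
  push_cast at e' ⊢
  have k0 : (0 : ℝ) ≤ k := Nat.cast_nonneg k
  nlinarith only [e', k0, pow_nonneg k0 2, pow_nonneg k0 3, pow_nonneg k0 4]

lemma ps_sq {E : Finset ℕ} (h : 1 ≤ ek E 1) (w : ℕ) :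
    ps E w ^ 2 ≤ 512 * w.choose 4 + 516 * ek E 1 ^ 4 := by
  have a := ek_two E
  have b := ek_nonneg E 2
  have c : ek E 1 ≤ ek E 1 ^ 2 := le_self_pow₀ h two_ne_zero
  have d := pow_four_le w
  have w0 : (0 : ℝ) ≤ w := Nat.cast_nonneg w
  have e := one_le_pow₀ (n := 4) h
  unfold ps
  generalize ek E 1 = L at *
  have f : (2 * ek E 2 + L - L ^ 2) ^ 2 ≤ (L ^ 2) ^ 2 := sq_le_sq' (by linarith) (by linarith)
  have g : ((w : ℝ) - L) ^ 4 ≤ w ^ 4 + L ^ 4 := by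
    clear * - w L w0 h e
    rcases le_total (w : ℝ) L with k | k
    · have := pow_le_pow_left₀ (sub_nonneg.2 k) (show L - w ≤ L by linarith) 4
      nlinarith only [this, w0, pow_nonneg w0 4]
    · have := pow_le_pow_left₀ (sub_nonneg.2 k) (show w - L ≤ w by linarith) 4
      linarith
  nlinarith only [d, e, f, g, sq_nonneg (((w : ℝ) - L) ^ 2 + (2 * ek E 2 + L - L ^ 2))]

lemma ps_ge {E : Finset ℕ} {w : ℕ} : ((w : ℝ) - ek E 1) ^ 2 - ek E 1 ≤ ps E w := by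
  linarith [ek_two E, show ps E w = ((w : ℝ) - ek E 1) ^ 2 - (2 * ek E 2 + ek E 1 - ek E 1 ^ 2)
    from rfl]

lemma ps_off {ι : Type*} (V : Finset ι) (u v : ι → ℕ) {E : Finset ℕ} (h : 1 ≤ ek E 1) {Y η : ℝ}
    (η0 : 0 ≤ η) (H : ∀ i < 3, ∀ j < 3,
      |∑ q ∈ V, ((v q).choose j : ℝ) * (u q).choose i - Y * (ek E i * ek E j)| ≤ η) :
    |∑ q ∈ V, ps E (u q) * ps E (v q)| ≤ (7 * ek E 1 ^ 2) ^ 2 * η := by
  have e : ∑ q ∈ V, ps E (u q) * ps E (v q) = ∑ i ∈ range 3, ∑ j ∈ range 3, pc E i * pc E j *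
      (∑ q ∈ V, ((v q).choose j : ℝ) * (u q).choose i - Y * (ek E i * ek E j)) := by
    have z : ∑ i ∈ range 3, ∑ j ∈ range 3, pc E i * pc E j * (Y * (ek E i * ek E j)) = 0 := by
      rw [← mul_zero (Y * ∑ i ∈ range 3, pc E i * ek E i), ← pc_zero E, mul_assoc, sum_mul_sum]
      simp only [mul_sum]
      exact sum_congr rfl fun _ _ => sum_congr rfl fun _ _ => by ring
    simp only [mul_sub, sum_sub_distrib, z, sub_zero, ps_eq, sum_mul_sum]
    simp only [mul_sum]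
    rw [sum_comm]
    refine sum_congr rfl fun i _ => ?_
    rw [sum_comm]
    exact sum_congr rfl fun _ _ => sum_congr rfl fun _ _ => by ring
  rw [e]
  calc _ ≤ ∑ i ∈ range 3, ∑ j ∈ range 3, |pc E i| * |pc E j| * η := by
        refine (abs_sum_le_sum_abs _ _).trans (sum_le_sum fun i hi =>
          (abs_sum_le_sum_abs _ _).trans (sum_le_sum fun j hj => ?_))
        rw [abs_mul, abs_mul]
        exact mul_le_mul_of_nonneg_left (H i (mem_range.1 hi) j (mem_range.1 hj)) (by positivity)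
    _ = (∑ i ∈ range 3, |pc E i|) ^ 2 * η := by
        rw [sq, sum_mul_sum, sum_mul]
        exact sum_congr rfl fun _ _ => (sum_mul _ _ _).symm
    _ ≤ _ := by gcongr; exact pc_abs h

end Pool.Agent.Work.MP_d018b2_nt.M
end

-- merged part: Pool.Agent.Work.MP_d018b2_nt.M.Lev
section
/-! Few forms have an atypical level on a large part of a given set. -/

set_option autoImplicit false
open Finset Filter

namespace Pool.Agent.Work.MP_d018b2_nt.M

open Pool.Agent.Work.MP_678620_nt Pool.Agent.Work.MP_51e72e_nt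

/-- A primitive form with coefficients at most `B`. -/
def Pf (B : ℝ) (φ : ℕ × ℤ) : Prop :=
  0 < φ.1 ∧ (φ.1 : ℝ) ≤ B ∧ |(φ.2 : ℝ)| ≤ B ∧ IsCoprime (φ.1 : ℤ) φ.2

lemma Pf.lin {B : ℝ} {φ ψ : ℕ × ℤ} (h : Pf B φ) (h' : Pf B ψ) (hne : φ ≠ ψ) :
    Lin B φ.1 ψ.1 φ.2 ψ.2 := by
  refine ⟨h.1, h'.1, h.2.1, h'.2.1, h.2.2.1, h'.2.2.1, h.2.2.2, h'.2.2.2, fun e => hne ?_⟩
  have a : φ.1 = ψ.1 := Nat.dvd_antisymm
    (Int.natCast_dvd_natCast.1 (h.2.2.2.dvd_of_dvd_mul_right ⟨_, e.symm⟩))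
    (Int.natCast_dvd_natCast.1 (h'.2.2.2.dvd_of_dvd_mul_right ⟨_, e⟩))
  rw [← a] at e
  exact Prod.ext a (mul_left_cancel₀ (by exact_mod_cast h.1.ne') e).symm

lemma Pf.nd {B : ℝ} {φ : ℕ × ℤ} (h : Pf B φ) {p : ℕ} (hp : 2 * B ^ 2 < p) : ¬ (p : ℤ) ∣ φ.1 := by
  have a : (1 : ℝ) ≤ B := le_trans (by exact_mod_cast h.1) h.2.1
  exact TB_nd h.1 (by exact_mod_cast h.2.1.trans_lt (show B < p by nlinarith only [hp, a]))

lemma bes_num {s T c D θ : ℝ} (s0 : 0 ≤ s) (hD : 0 ≤ c * D) (hθ : c * θ ≤ T ^ 2 / 2)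
    (h : (s * T) ^ 2 ≤ c * (s * D + s ^ 2 * θ)) : s * T ^ 2 ≤ 2 * (c * D) := by
  rcases s0.eq_or_lt with rfl | s1
  · linarith
  refine le_of_mul_le_mul_left ?_ s1
  linarith only [h, hθ, mul_le_mul_of_nonneg_left hθ (sq_nonneg s)]

theorem lev (A w : ℕ) {ε : ℝ} (hε : 0 < ε) : ∀ᶠ X : ℕ in atTop,
    ∀ (Q : ℕ → ℤ → Prop) [∀ p, DecidablePred (Q p)],
    (∀ (p : ℕ) (x y : ℤ), x ≡ y [ZMOD p] → Q p x → Q p y) → ∀ P ⊆ VV (PZ w) Q X, ∀ T : ℝ,
    X / Real.log X ^ A ≤ T → ε * P.card ≤ T → ∀ J : Finset ℕ,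
    (∀ j : ℕ, ek (TE.EE X) 1 / 2 ≤ j → (j : ℝ) ≤ 2 * ek (TE.EE X) 1 → j ∈ J) →
    ∀ S : Finset (ℕ × ℤ), (∀ φ ∈ S, Pf (Real.log X ^ A) φ ∧
      T / 24 ≤ (P.filter fun q => wE (TE.EE X) (φ.1 * q + φ.2) ∉ J).card) →
    S.card * T ^ 2 ≤ 10 ^ 8 * (P.card * (X * rr (PZ w) Q + X / Real.log X)) := by
  have hc : (0 : ℝ) < 1 / 8 := by norm_num
  obtain ⟨W, hW⟩ : ∃ W, W = ∏ p ∈ PZ w, p := ⟨_, rfl⟩
  filter_upwards [TE.EE_ok, TE.scales, TB_mertens, TB_ev_exp 3 (2 * A) hc, TB_ev_exp (w + 1) 0 hc,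
    TB_ev_exp (8 * Real.exp 144) (A + 3) hc,
    TB_ev_exp (2 * W) (A + 1) (show (0 : ℝ) < 1 / 4 by norm_num),
    TE.rpow_le_rpow_log 9 (show (1 / 4 : ℝ) < 1 by norm_num),
    TE.LL_tendsto.eventually_ge_atTop (10 + 1920 / ε), eventually_gt_atTop 0,
    TB_tend.eventually_ge_atTop (4000000 / ε)]
    with X hE hs hM g1 g2 g3 g4 g5 g6 X0 g7 Q _ per P hP T T1 T2 J hJ S hS
  obtain ⟨⟨E1, E2, E3, -⟩, L1⟩ := hE
  have X0 : (0 : ℝ) < X := by exact_mod_cast X0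
  have eX : Real.exp (Real.log X) = X := Real.exp_log X0
  obtain ⟨-, l2, z2, -, -, -, hq⟩ := hs
  have L2 : ek (TE.EE X) 1 ≤ Real.log (Real.log X) + 72 := by
    clear * - X z2 E1 E3 hq hM
    rw [ek_one]
    exact (sum_le_sum_of_subset_of_nonneg (fun p hp => (mem_PZ (by linarith only [z2])).mpr
      ⟨E1 p hp, (E3 p hp).trans hq⟩) fun _ _ _ => by positivity).trans hM
  rw [← ek_one] at L1
  rw [Real.rpow_one] at g5
  rw [pow_zero, mul_one] at g2
  replace L1 : 1 + 192 / ε ≤ ek (TE.EE X) 1 := by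
    clear * - ε X g6 L1
    linarith only [g6, L1, show 1920 / ε = 10 * (192 / ε) by ring]
  have H0p := Real.exp_pos (Real.log X ^ (1 / 8 : ℝ))
  have H1p := Real.one_le_exp (Real.rpow_nonneg (show 0 ≤ Real.log X by clear * - X l2; linarith) (1 / 4 : ℝ))
  have H9 : Real.exp (Real.log X ^ (1 / 4 : ℝ)) ^ 9 ≤ X := by
    rw [← Real.exp_nat_mul, ← Real.le_log_iff_exp_le X0]
    exact_mod_cast g5
  clear g5 g6 hM hq z2
  generalize TE.EE X = E at *
  generalize Real.log X = l at *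
  generalize Real.exp (l ^ (1 / 8 : ℝ)) = H0 at *
  generalize Real.exp (l ^ (1 / 4 : ℝ)) = H1 at *
  have l1 : 1 ≤ l := by linarith only [l2]
  have l0 : 0 < l := by linarith only [l2]
  have i1 : 0 < 192 / ε := by positivity
  have L0 : 1 ≤ ek E 1 := by linarith only [L1, i1]
  have T0 : 0 < T := lt_of_lt_of_le (by positivity) T1
  have big : ∀ p ∈ E, 2 * (l ^ A) ^ 2 < p := fun p hp => by
    rw [mul_comm 2 A, pow_mul] at g1
    linarith only [g1, g2, E2 p hp, show 0 < (l ^ A) ^ 2 by positivity]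
  obtain ⟨r0, r1⟩ := rr_bd (PZ w) Q
  have hΛ : Real.exp (∑ p ∈ E, (p : ℝ)⁻¹) ^ 2 ≤ Real.exp 144 * l ^ 2 := by
    rw [← ek_one, show (144 : ℝ) = (2 : ℕ) * 72 by norm_num, Real.exp_nat_mul, ← mul_pow]
    refine pow_le_pow_left₀ (Real.exp_pos _).le ?_ 2
    rw [← Real.exp_log l0, ← Real.exp_add, Real.exp_le_exp]
    linarith only [L2]
  have W1 : (W : ℝ) * H1 ^ 8 ≤ X / l ^ (A + 1) / 2 := by
    clear * - W H1 X l A l2 g4 H1p H9
    rw [div_div, le_div_iff₀ (by positivity)]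
    calc _ = 2 * W * l ^ (A + 1) * H1 ^ 8 := by ring
      _ ≤ H1 * H1 ^ 8 := by gcongr
      _ ≤ _ := by rwa [← pow_succ']
  have key : ∀ φ ∈ S, ∀ ψ ∈ S, ∀ i j : ℕ, i + j ≤ 4 → (j = 0 ∨ φ ≠ ψ) →
      |∑ q ∈ VV (PZ w) Q X, ((wE E (ψ.1 * q + ψ.2)).choose j : ℝ) * (wE E (φ.1 * q + φ.2)).choose i
        - X * rr (PZ w) Q * (ek E i * ek E j)| ≤ X / l ^ (A + 1) := fun φ hφ ψ hψ i j ij hd => by
    refine (mom Q (fun _ => PZ_prime) per H0p (zero_le_one.trans H1p) (fun p hp => ⟨E1 p hp,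
      fun k => by clear * - w H0 p g2 k E2 hp; linarith [((mem_PZ (Nat.cast_nonneg w)).1 k).2, E2 p hp],
      (hS φ hφ).1.nd (big p hp), (hS ψ hψ).1.nd (big p hp), E2 p hp, E3 p hp⟩) i j
      (hd.imp_right fun k p hp => (((hS φ hφ).1.lin (hS ψ hψ).1 k).big (big p hp)).2.2) X).trans ?_
    have i4 : (i : ℝ) ≤ 4 := by exact_mod_cast (by omega : i ≤ 4)
    have a : X * (Real.exp (∑ p ∈ E, (p : ℝ)⁻¹) ^ 2 * (i / H0)) ≤ X / l ^ (A + 1) / 2 := by
      calc _ ≤ X * (Real.exp 144 * l ^ 2 * (4 / (8 * Real.exp 144 * l ^ (A + 3)))) := by gcongr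
        _ = _ := by field_simp; ring
    have b : (W : ℝ) * H1 ^ (2 * (i + j)) ≤ W * H1 ^ 8 :=
      mul_le_mul_of_nonneg_left (pow_le_pow_right₀ H1p (by omega)) (Nat.cast_nonneg _)
    rw [← hW]
    clear * - X E i H0 W H1 j l A W1 a b
    linarith only [W1, a, b]
  have η1 : X / l ^ (A + 1) ≤ X / l :=
    div_le_div_of_nonneg_left X0.le l0 (le_self_pow₀ l1 (by omega))
  have η0 : 0 < X / l ^ (A + 1) := by positivity
  have hV : ((VV (PZ w) Q X).card : ℝ) ≤ X * rr (PZ w) Q + X / l := by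
    clear * - w Q X per l W H1 A W1 η1 η0 hW H1p
    have := VV_card Q (fun _ => PZ_prime (z := w)) per X
    rw [← hW] at this
    linarith only [W1, η1, η0, this, H1p, le_mul_of_one_le_right (Nat.cast_nonneg (α := ℝ) W) (one_le_pow₀ (n := 8) H1p)]
  have n0 : 0 ≤ X * rr (PZ w) Q := by positivity
  have L4 := one_le_pow₀ (n := 4) L0
  have Be := bessel S hP (fun _ => 1) (fun _ => norm_one.le)
    (fun φ q => (ps E (wE E (φ.1 * q + φ.2)) : ℂ)) (T := T * ek E 1 ^ 2 / 192)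
    (D := 1028 * ek E 1 ^ 4 * (X * rr (PZ w) Q + X / l))
    (θ := (7 * ek E 1 ^ 2) ^ 2 * (X / l ^ (A + 1))) (by positivity) (by positivity)
    (fun φ hφ => by
      clear * - T E P φ J ε L1 i1 hJ l A hS hφ hε T2 L0
      simp only [one_mul]
      rw [← Complex.ofReal_sum, Complex.norm_real, Real.norm_eq_abs]
      refine le_trans ?_ ((sum_le_sum fun q _ => ps_ge).trans (le_abs_self _))
      rw [sum_sub_distrib, sum_const, nsmul_eq_mul]
      have a := (card_nsmul_le_sum (P.filter fun q => wE E (φ.1 * q + φ.2) ∉ J)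
        (fun q => ((wE E (φ.1 * q + φ.2) : ℝ) - ek E 1) ^ 2) ((ek E 1 / 2) ^ 2) fun q hq => by
          refine sq_le_sq.2 ?_
          rw [abs_of_nonneg (by linarith), le_abs]
          by_contra k
          push Not at k
          exact (mem_filter.1 hq).2 (hJ _ (by linarith only [k, k.2]) (by linarith only [L1, i1, k, k.1]))).trans
        (sum_le_sum_of_subset_of_nonneg (filter_subset _ _) fun _ _ _ => sq_nonneg _)
      rw [nsmul_eq_mul] at a
      have b := mul_le_mul_of_nonneg_right (hS φ hφ).2 (sq_nonneg (ek E 1 / 2))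
      have c : 192 * (P.card : ℝ) ≤ ek E 1 * T := by
        have := (div_le_iff₀ hε).1 (show 192 / ε ≤ ek E 1 by linarith only [L1])
        calc _ ≤ ek E 1 * ε * P.card := by gcongr
          _ ≤ _ := by rw [mul_assoc]; gcongr
      have d := mul_le_mul_of_nonneg_left c (zero_le_one.trans L0)
      linarith only [a, b, d])
    (fun φ hφ => by
      clear * - w Q X E φ l L0 A key hφ n0 hV L4 η0 η1
      simp only [Complex.norm_real, Real.norm_eq_abs, sq_abs]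
      refine (sum_le_sum fun q _ => ps_sq L0 _).trans ?_
      have a := (abs_le.1 (key φ hφ φ hφ 4 0 le_rfl (Or.inl rfl))).2
      simp only [Nat.choose_zero_right, Nat.cast_one, one_mul, show ek E 0 = 1 from esym_zero _ _,
        mul_one] at a
      have b : ek E 4 ≤ ek E 1 ^ 4 := by
        refine (esym_le_pow (fun _ _ => by positivity) 4).trans ?_
        rw [← ek_one]
        exact div_le_self (by positivity) (by exact_mod_cast Nat.factorial_pos 4)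
      rw [sum_add_distrib, ← mul_sum, sum_const, nsmul_eq_mul]
      have c := mul_le_mul_of_nonneg_left b n0
      have d := mul_le_mul_of_nonneg_right hV (zero_le_one.trans L4)
      have e := le_mul_of_one_le_right (η0.le.trans η1) L4
      linarith only [η1, a, c, d, e])
    fun φ hφ ψ hψ hne => by
      simp only [Complex.conj_ofReal, ← Complex.ofReal_mul]
      rw [← Complex.ofReal_sum, Complex.norm_real, Real.norm_eq_abs]
      exact ps_off _ _ _ L0 η0.le fun i hi j hj => key φ hφ ψ hψ i j (by omega) (Or.inr hne)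
  have F := bes_num (Nat.cast_nonneg _) (by positivity) ?_ Be
  · refine le_of_mul_le_mul_right ?_ (show 0 < ek E 1 ^ 4 by positivity)
    have : 0 ≤ P.card * (X * rr (PZ w) Q + X / l) * ek E 1 ^ 4 := by positivity
    clear * - S T E P X w Q l F this
    linarith only [F, this]
  · have a : X / l ^ (A + 1) ≤ T / l := by
      rw [pow_succ, ← div_div]
      gcongr
    have b : 4000000 * (P.card : ℝ) ≤ l * T := by
      clear * - l ε hε g7 P T T2 l2
      have := (div_le_iff₀ hε).1 g7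
      calc _ ≤ l * ε * P.card := by gcongr
        _ ≤ _ := by rw [mul_assoc]; gcongr
    calc _ ≤ l * T / 4000000 * ((7 * ek E 1 ^ 2) ^ 2 * (T / l)) := by
          gcongr
          clear * - P l T b
          linarith
      _ = T ^ 2 * ek E 1 ^ 4 * (49 / 4000000) := by field_simp; norm_num
      _ ≤ T ^ 2 * ek E 1 ^ 4 * (1 / 73728) :=
          mul_le_mul_of_nonneg_left (by norm_num) (by positivity)
      _ = _ := by ring

end Pool.Agent.Work.MP_d018b2_nt.M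
end
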